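import Mathlib

/-!
Symmetric decompositions of Artinian Gorenstein (AG) local algebras.
-/

namespace Pool.Agent.Lib.MP_29aef5_ag

section General

variable (k : Type*) [Field k] {A : Type*} [CommRing A] [Algebra k A]

/-- The socle degree of a local ring with maximal ideal `m`: the largest `i` with `m ^ i ≠ 0`. -/
noncomputable def socleDegree (m : Ideal A) : ℕ := sSup {i : ℕ | m ^ i ≠ ⊥}

/-- `C(a)_i`: the image of `(0 : m^(j+1-a-i)) ∩ m^i` in `m^i / m^(i+1)`, the latter seen inside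
`A / m^(i+1)`; here `j` is the socle degree and `m ^ n` means `A` when `n ≤ 0`. -/
noncomputable def gradedC (m : Ideal A) (a i : ℕ) : Submodule k (A ⧸ m ^ (i + 1)) :=
  (((m ^ (socleDegree m + 1 - a - i)).annihilator ⊓ m ^ i).restrictScalars k).map
    (Ideal.Quotient.mkₐ k (m ^ (i + 1))).toLinearMap

/-- `H(a)_i = dim_k Q(a)_i`, where `Q(a)_i = C(a)_i / C(a+1)_i`. -/
noncomputable def symH (m : Ideal A) (a i : ℕ) : ℕ :=
  Module.finrank k (gradedC k m a i ⧸ (gradedC k m (a + 1) i).submoduleOf (gradedC k m a i))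

end General

section PowerSeries

variable {k : Type*} [Field k] {r : ℕ}

/-- The maximal ideal of `A = R/I`, where `R = k{x_1, …, x_r}`. -/
noncomputable def maxIdeal (I : Ideal (MvPowerSeries (Fin r) k)) :
    Ideal (MvPowerSeries (Fin r) k ⧸ I) :=
  (IsLocalRing.maximalIdeal (MvPowerSeries (Fin r) k)).map (Ideal.Quotient.mk I)

/-- `A = R/I` is an AG algebra: a nonzero Artinian (local) quotient of `R = k{x_1, …, x_r}` which
is Gorenstein, i.e. whose socle `(0 : m)` is one-dimensional. -/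
def IsAG (I : Ideal (MvPowerSeries (Fin r) k)) : Prop :=
  I ≠ ⊤ ∧ IsArtinianRing (MvPowerSeries (Fin r) k ⧸ I) ∧
    Module.finrank k (maxIdeal I).annihilator = 1

/-- The entry `H_A(a)_i` of the symmetric decomposition of `A = R/I`. -/
noncomputable def decomp (I : Ideal (MvPowerSeries (Fin r) k)) (a i : ℕ) : ℕ :=
  symH k (maxIdeal I) a i

/-- The partial decomposition `D_{≤ a}(A)`, `A = R/I`, is non-ubiquitous: there is no AG algebra
`B = k{x_1, …, x_s}/J` with `H_B(u) = H_A(u)` for `u ≤ a` and `H_B(u) = 0` for `u > a`. -/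
def IsNonUbiquitous (I : Ideal (MvPowerSeries (Fin r) k)) (a : ℕ) : Prop :=
  ¬ ∃ (s : ℕ) (J : Ideal (MvPowerSeries (Fin s) k)), IsAG J ∧
    (∀ u ≤ a, ∀ i, decomp J u i = decomp I u i) ∧ (∀ u > a, ∀ i, decomp J u i = 0)

end PowerSeries

end Pool.Agent.Lib.MP_29aef5_ag
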