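import Mathlib
import Pool.Agent.Lib.MP_29aef5_ag.Defs

/-!
General facts about the spaces `C(a)_i`.
-/

namespace Pool.Agent.Lib.MP_29aef5_ag

section

variable {k : Type*} [Field k] {A : Type*} [CommRing A] [Algebra k A]

/-- The residue field is `k`, and `m` is nilpotent and the ring Noetherian: then the algebra is
finite-dimensional. -/
theorem exists_finset_span (m : Ideal A) [IsNoetherianRing A]
    (hres : ∀ b : A, ∃ c : k, b - algebraMap k A c ∈ m) (n : ℕ) :
    ∃ S : Finset A, ∀ b : A, ∃ s ∈ Submodule.span k (S : Set A), b - s ∈ m ^ n := by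
  classical
  induction n with
  | zero => exact ⟨∅, fun b => ⟨0, Submodule.zero_mem _, by simp⟩⟩
  | succ n ih =>
    obtain ⟨S, hS⟩ := ih
    obtain ⟨G, hG⟩ : (m ^ n).FG := IsNoetherian.noetherian (m ^ n)
    refine ⟨S ∪ G, fun b => ?_⟩
    obtain ⟨s, hs, hbs⟩ := hS b
    have key : ∀ u ∈ Ideal.span (G : Set A), ∃ t ∈ Submodule.span k (G : Set A),
        u - t ∈ m ^ (n + 1) := by
      intro u hu
      induction hu using Submodule.span_induction with
      | mem x hx => exact ⟨x, Submodule.subset_span hx, by simp⟩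
      | zero => exact ⟨0, Submodule.zero_mem _, by simp⟩
      | add x y _ _ hx hy =>
        obtain ⟨t1, h1, h1'⟩ := hx
        obtain ⟨t2, h2, h2'⟩ := hy
        refine ⟨t1 + t2, Submodule.add_mem _ h1 h2, ?_⟩
        have := Ideal.add_mem _ h1' h2'
        convert this using 1
        ring
      | smul a x hx ih =>
        obtain ⟨t, ht, ht'⟩ := ih
        obtain ⟨c, hc⟩ := hres a
        refine ⟨c • t, Submodule.smul_mem _ _ ht, ?_⟩
        have hxm : x ∈ m ^ n := by
          rw [← hG]; exact hx
        have h1 : (a - algebraMap k A c) * x ∈ m ^ (n + 1) := by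
          rw [pow_succ']
          exact Ideal.mul_mem_mul hc hxm
        have h2 : algebraMap k A c * (x - t) ∈ m ^ (n + 1) := Ideal.mul_mem_left _ _ ht'
        have := Ideal.add_mem _ h1 h2
        convert this using 1
        rw [smul_eq_mul, Algebra.smul_def]
        ring
    obtain ⟨t, ht, ht'⟩ := key (b - s) (by rw [← hG] at hbs; exact hbs)
    refine ⟨s + t, Submodule.add_mem _ ?_ ?_, ?_⟩
    · exact Submodule.span_mono (by simp) hs
    · exact Submodule.span_mono (by simp) ht
    · convert ht' using 1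
      ring

theorem finite_of_nilpotent (m : Ideal A) [IsNoetherianRing A]
    (hres : ∀ b : A, ∃ c : k, b - algebraMap k A c ∈ m) {N : ℕ} (hN : m ^ N = ⊥) :
    Module.Finite k A := by
  obtain ⟨S, hS⟩ := exists_finset_span m hres N
  refine ⟨⟨S, ?_⟩⟩
  rw [eq_top_iff]
  intro b _
  obtain ⟨s, hs, hbs⟩ := hS b
  rw [hN, Submodule.mem_bot, sub_eq_zero] at hbs
  rw [hbs]; exact hs

theorem pow_socleDegree_succ (m : Ideal A) {N : ℕ} (hN : m ^ N = ⊥) :
    m ^ (socleDegree m + 1) = ⊥ := by
  have hbdd : BddAbove {i : ℕ | m ^ i ≠ ⊥} := by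
    refine ⟨N, fun i hi => ?_⟩
    by_contra h
    push Not at h
    apply hi
    rw [eq_bot_iff, ← hN]
    exact Ideal.pow_le_pow_right h.le
  by_contra h
  have := le_csSup hbdd (show socleDegree m + 1 ∈ {i : ℕ | m ^ i ≠ ⊥} from h)
  have h2 : socleDegree m = sSup {i : ℕ | m ^ i ≠ ⊥} := rfl
  omega

theorem gradedC_antitone (m : Ideal A) (a i : ℕ) :
    gradedC k m (a + 1) i ≤ gradedC k m a i := by
  unfold gradedC
  apply Submodule.map_mono
  intro x hx
  simp only [Submodule.restrictScalars_mem] at hx ⊢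
  refine ⟨?_, hx.2⟩
  exact Submodule.annihilator_mono (Ideal.pow_le_pow_right (by omega)) hx.1

theorem mem_gradedC (m : Ideal A) (a i : ℕ) (x : A)
    (h1 : x ∈ m ^ i) (h2 : ∀ y ∈ m ^ (socleDegree m + 1 - a - i), x * y = 0) :
    Ideal.Quotient.mkₐ k (m ^ (i + 1)) x ∈ gradedC k m a i := by
  unfold gradedC
  refine ⟨x, ⟨?_, h1⟩, rfl⟩
  rw [SetLike.mem_coe, Submodule.mem_annihilator]
  intro y hy
  exact h2 y hy

theorem gradedC_eq_bot_of_large (m : Ideal A) (a i : ℕ) (h : socleDegree m + 1 ≤ a + i) :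
    gradedC k m a i = ⊥ := by
  unfold gradedC
  have h0 : socleDegree m + 1 - a - i = 0 := by omega
  rw [h0, pow_zero, Ideal.one_eq_top, Submodule.annihilator_top]
  rw [eq_bot_iff]
  rintro _ ⟨x, hx, rfl⟩
  have hx1 : x ∈ Module.annihilator A A := hx.1
  rw [Module.mem_annihilator] at hx1
  have : x = 0 := by simpa using hx1 1
  rw [this]
  simp

theorem symH_eq (m : Ideal A) [Module.Finite k A] (a i : ℕ) :
    symH k m a i + Module.finrank k (gradedC k m (a + 1) i) =
      Module.finrank k (gradedC k m a i) := by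
  have h := gradedC_antitone (k := k) m a i
  have h1 := Submodule.finrank_quotient_add_finrank
    ((gradedC k m (a + 1) i).submoduleOf (gradedC k m a i))
  have h2 : Module.finrank k ((gradedC k m (a + 1) i).submoduleOf (gradedC k m a i)) =
      Module.finrank k (gradedC k m (a + 1) i) :=
    (Submodule.submoduleOfEquivOfLe h).finrank_eq
  rw [h2] at h1
  exact h1

theorem gradedC_eq_of_symH_eq_zero (m : Ideal A) [Module.Finite k A] (a i : ℕ)
    (h : symH k m a i = 0) : gradedC k m a i = gradedC k m (a + 1) i := by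
  have h1 := symH_eq (k := k) m a i
  rw [h, zero_add] at h1
  exact (Submodule.eq_of_le_of_finrank_eq (gradedC_antitone m a i) h1).symm

theorem gradedC_eq_bot (m : Ideal A) [Module.Finite k A] (b i : ℕ)
    (h : ∀ a, b ≤ a → symH k m a i = 0) : gradedC k m b i = ⊥ := by
  have : ∀ n, gradedC k m b i = gradedC k m (b + n) i := by
    intro n
    induction n with
    | zero => rfl
    | succ n ih =>
      rw [ih, gradedC_eq_of_symH_eq_zero m (b + n) i (h _ (by omega))]
      rfl
  rw [this (socleDegree m + 1)]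
  exact gradedC_eq_bot_of_large m _ _ (by omega)

theorem gradedC_zero (m : Ideal A) {N : ℕ} (hN : m ^ N = ⊥) (i : ℕ) :
    gradedC k m 0 i = ((m ^ i).restrictScalars k).map
      (Ideal.Quotient.mkₐ k (m ^ (i + 1))).toLinearMap := by
  unfold gradedC
  congr 1
  ext x
  simp only [Submodule.restrictScalars_mem, Submodule.mem_inf, and_iff_right_iff_imp]
  intro hx
  rw [Submodule.mem_annihilator]
  intro y hy
  have : x * y ∈ m ^ (socleDegree m + 1) := by
    have h1 := Ideal.mul_mem_mul hx hy
    rw [← pow_add] at h1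
    exact Ideal.pow_le_pow_right (by omega) h1
  rw [pow_socleDegree_succ m hN, Submodule.mem_bot] at this
  exact this

end

end Pool.Agent.Lib.MP_29aef5_ag
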