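import Mathlib
import Pool.Agent.Lib.MP_29aef5_ag.Defs
import Pool.Agent.Lib.MP_29aef5_ag.General

/-!
Algebras with a self-dual basis adapted to the powers of the maximal ideal.
-/

namespace Pool.Agent.Lib.MP_29aef5_ag

/-- A self-dual basis `e` adapted to the powers of the ideal `m`: `m ^ i` is spanned by the `e s`
with `o s ≥ i`, and the pairing `Φ (a * b)` pairs `e s` exactly with `e (σ s)`. -/
structure Adapted (k : Type*) [Field k] {A : Type*} [CommRing A] [Algebra k A] (m : Ideal A)
    (ι : Type*) [Fintype ι] [DecidableEq ι] where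
  e : ι → A
  o : ι → ℕ
  σ : ι → ι
  c : ι → k
  Φ : A →ₗ[k] k
  σσ : ∀ s, σ (σ s) = s
  c_ne : ∀ s, c s ≠ 0
  pair : ∀ s t, Φ (e s * e t) = if t = σ s then c s else 0
  pow_eq : ∀ i, (m ^ i).restrictScalars k = Submodule.span k (e '' {s | i ≤ o s})

namespace Adapted

variable {k : Type*} [Field k] {A : Type*} [CommRing A] [Algebra k A] {m : Ideal A}
  {ι : Type*} [Fintype ι] [DecidableEq ι] (D : Adapted k m ι)

theorem linInd : LinearIndependent k D.e := by
  rw [Fintype.linearIndependent_iff]
  intro g hg s
  have h : D.Φ ((∑ i, g i • D.e i) * D.e (D.σ s)) = 0 := by rw [hg, zero_mul, map_zero]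
  rw [Finset.sum_mul, map_sum, Finset.sum_eq_single s] at h
  · rw [smul_mul_assoc, map_smul, D.pair, if_pos rfl, smul_eq_mul] at h
    exact (mul_eq_zero.1 h).resolve_right (D.c_ne s)
  · intro t _ hts
    rw [smul_mul_assoc, map_smul, D.pair, if_neg, smul_zero]
    intro h'
    apply hts
    rw [← D.σσ t, ← h', D.σσ]
  · intro h'; exact absurd (Finset.mem_univ _) h'

theorem span_top : ⊤ ≤ Submodule.span k (Set.range D.e) := by
  have h := D.pow_eq 0
  rw [pow_zero, Ideal.one_eq_top] at h
  have h2 : {s | 0 ≤ D.o s} = Set.univ := by ext; simp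
  rw [h2, Set.image_univ] at h
  rw [← h]
  intro x _
  exact Submodule.mem_top (R := A)

/-- The basis. -/
noncomputable def basis : Module.Basis ι k A := Module.Basis.mk D.linInd D.span_top

theorem basis_apply (s : ι) : D.basis s = D.e s := by
  rw [basis, Module.Basis.mk_apply]

theorem mem_pow_iff (i : ℕ) (x : A) : x ∈ m ^ i ↔ ∀ s, D.basis.repr x s ≠ 0 → i ≤ D.o s := by
  have h : x ∈ m ^ i ↔ x ∈ (m ^ i).restrictScalars k := Iff.rfl
  have h2 : D.e '' {s | i ≤ D.o s} = D.basis '' {s | i ≤ D.o s} := by
    apply Set.image_congr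
    intro s _
    rw [basis_apply]
  rw [h, D.pow_eq, h2, Module.Basis.mem_span_image]
  constructor
  · intro h s hs
    exact h (by simpa using hs)
  · intro h s hs
    exact h s (by simpa using hs)

theorem Φ_mul_e (x : A) (t : ι) :
    D.Φ (x * D.e t) = D.basis.repr x (D.σ t) * D.c (D.σ t) := by
  have hx := D.basis.sum_repr x
  conv_lhs => rw [← hx]
  rw [Finset.sum_mul, map_sum, Finset.sum_eq_single (D.σ t)]
  · rw [basis_apply, smul_mul_assoc, map_smul, D.pair, if_pos (D.σσ t).symm, smul_eq_mul]
  · intro s _ hs
    rw [basis_apply, smul_mul_assoc, map_smul, D.pair, if_neg, smul_zero]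
    intro h'
    apply hs
    rw [h', D.σσ]
  · intro h'; exact absurd (Finset.mem_univ _) h'

theorem nondeg (x : A) (h : ∀ y, D.Φ (x * y) = 0) : x = 0 := by
  apply D.basis.repr.injective
  rw [map_zero]
  ext s
  have h1 := D.Φ_mul_e x (D.σ s)
  rw [h, D.σσ] at h1
  exact (mul_eq_zero.1 h1.symm).resolve_right (D.c_ne s)

theorem mem_annihilator_iff (l : ℕ) (x : A) :
    x ∈ (m ^ l).annihilator ↔ ∀ s, D.basis.repr x s ≠ 0 → D.o (D.σ s) < l := by
  rw [Submodule.mem_annihilator]
  constructor
  · intro h s hs
    by_contra hlt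
    push Not at hlt
    apply hs
    have h1 : D.e (D.σ s) ∈ m ^ l := by
      have : D.e (D.σ s) ∈ (m ^ l).restrictScalars k := by
        rw [D.pow_eq]
        exact Submodule.subset_span ⟨_, hlt, rfl⟩
      exact this
    have h2 := h _ h1
    have h3 := D.Φ_mul_e x (D.σ s)
    rw [smul_eq_mul] at h2
    rw [h2, map_zero, D.σσ] at h3
    exact (mul_eq_zero.1 h3.symm).resolve_right (D.c_ne s)
  · intro h y hy
    rw [smul_eq_mul]
    apply D.nondeg
    intro w
    have hyw : y * w ∈ m ^ l := Ideal.mul_mem_right _ _ hy
    rw [mul_assoc]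
    have h1 : ∀ v ∈ (m ^ l).restrictScalars k, D.Φ (x * v) = 0 := by
      rw [D.pow_eq]
      intro v hv
      induction hv using Submodule.span_induction with
      | mem v hv =>
        obtain ⟨t, ht, rfl⟩ := hv
        rw [D.Φ_mul_e]
        by_cases h0 : D.basis.repr x (D.σ t) = 0
        · rw [h0, zero_mul]
        · have := h _ h0
          rw [D.σσ] at this
          exact absurd this (not_lt.2 ht)
      | zero => rw [mul_zero, map_zero]
      | add u v _ _ hu hv => rw [mul_add, map_add, hu, hv, add_zero]
      | smul c u _ hu => rw [mul_smul_comm, map_smul, hu, smul_zero]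
    exact h1 _ hyw

theorem repr_e (s t : ι) : D.basis.repr (D.e s) t = if s = t then 1 else 0 := by
  rw [← basis_apply, Module.Basis.repr_self, Finsupp.single_apply]

theorem e_mem_pow (s : ι) (i : ℕ) : D.e s ∈ m ^ i ↔ i ≤ D.o s := by
  rw [D.mem_pow_iff]
  constructor
  · intro h
    apply h s
    rw [repr_e, if_pos rfl]; exact one_ne_zero
  · intro h t ht
    rw [repr_e] at ht
    have : s = t := by
      by_contra hne
      rw [if_neg hne] at ht
      exact ht rfl
    rw [← this]; exact h

theorem finrank_gradedC (a i : ℕ) :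
    Module.finrank k (gradedC k m a i) =
      Fintype.card {s : ι // D.o s = i ∧ D.o (D.σ s) < socleDegree m + 1 - a - i} := by
  set l := socleDegree m + 1 - a - i with hl
  let v : {s : ι // D.o s = i ∧ D.o (D.σ s) < l} → A ⧸ m ^ (i + 1) :=
    fun s => Ideal.Quotient.mkₐ k (m ^ (i + 1)) (D.e s.1)
  have hv : LinearIndependent k v := by
    rw [Fintype.linearIndependent_iff]
    intro g hg s
    have h1 : (∑ t, g t • D.e t.1) ∈ m ^ (i + 1) := by
      have h2 : Ideal.Quotient.mkₐ k (m ^ (i + 1)) (∑ t, g t • D.e t.1) = 0 := by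
        rw [map_sum]
        simpa only [map_smul] using hg
      rw [Ideal.Quotient.mkₐ_eq_mk, Ideal.Quotient.eq_zero_iff_mem] at h2
      exact h2
    rw [D.mem_pow_iff] at h1
    by_contra hgs
    have h3 : D.basis.repr (∑ t, g t • D.e t.1) s.1 = g s := by
      rw [map_sum, Finsupp.finsetSum_apply, Finset.sum_eq_single s]
      · rw [map_smul, Finsupp.smul_apply, repr_e, if_pos rfl, smul_eq_mul, mul_one]
      · intro t _ hts
        rw [map_smul, Finsupp.smul_apply, repr_e, if_neg, smul_zero]
        intro h'; exact hts (Subtype.ext h')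
      · intro h'; exact absurd (Finset.mem_univ _) h'
    have h4 := h1 s.1 (by rw [h3]; exact hgs)
    have h5 := s.2.1
    omega
  have hspan : Submodule.span k (Set.range v) = gradedC k m a i := by
    apply le_antisymm
    · rw [Submodule.span_le]
      rintro _ ⟨s, rfl⟩
      apply mem_gradedC
      · rw [D.e_mem_pow, s.2.1]
      · have h1 : D.e s.1 ∈ (m ^ l).annihilator := by
          rw [D.mem_annihilator_iff]
          intro t ht
          rw [repr_e] at ht
          have : s.1 = t := by
            by_contra hne
            rw [if_neg hne] at ht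
            exact ht rfl
          rw [← this]; exact s.2.2
        intro y hy
        rw [Submodule.mem_annihilator] at h1
        exact h1 y hy
    · rintro _ ⟨x, hx, rfl⟩
      have hx1 : x ∈ (m ^ l).annihilator := hx.1
      have hx2 : x ∈ m ^ i := hx.2
      rw [D.mem_annihilator_iff] at hx1
      rw [D.mem_pow_iff] at hx2
      change Ideal.Quotient.mkₐ k (m ^ (i + 1)) x ∈ _
      rw [← D.basis.sum_repr x, map_sum]
      apply Submodule.sum_mem
      intro s _
      rw [map_smul]
      by_cases h0 : D.basis.repr x s = 0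
      · rw [h0, zero_smul]; exact Submodule.zero_mem _
      · apply Submodule.smul_mem
        rw [basis_apply]
        by_cases hs : D.o s = i
        · apply Submodule.subset_span
          exact ⟨⟨s, hs, hx1 s h0⟩, rfl⟩
        · have h1 := hx2 s h0
          have : Ideal.Quotient.mkₐ k (m ^ (i + 1)) (D.e s) = 0 := by
            rw [Ideal.Quotient.mkₐ_eq_mk, Ideal.Quotient.eq_zero_iff_mem, D.e_mem_pow]
            omega
          rw [this]; exact Submodule.zero_mem _
  rw [← hspan]
  exact finrank_span_eq_card hv

theorem socleDegree_eq (j : ℕ) (h1 : ∃ s, D.o s = j) (h2 : ∀ s, D.o s ≤ j) :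
    socleDegree m = j := by
  have hne : ∀ i, m ^ i ≠ ⊥ ↔ i ≤ j := by
    intro i
    constructor
    · intro h
      by_contra hlt
      push Not at hlt
      apply h
      rw [eq_bot_iff]
      intro x hx
      rw [D.mem_pow_iff] at hx
      rw [Submodule.mem_bot]
      apply D.basis.repr.injective
      rw [map_zero]
      ext s
      by_contra h0
      have h3 := hx s h0
      have h4 := h2 s
      omega
    · intro h h0
      obtain ⟨s, hs⟩ := h1
      have h3 : D.e s ∈ m ^ i := by rw [D.e_mem_pow, hs]; exact h
      rw [h0, Submodule.mem_bot] at h3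
      exact D.linInd.ne_zero s h3
  have : {i : ℕ | m ^ i ≠ ⊥} = Set.Iic j := by
    ext i; exact hne i
  rw [socleDegree, this, csSup_Iic]

include D in
theorem finite : Module.Finite k A := Module.Finite.of_basis D.basis

theorem finrank_socle : Module.finrank k ((m.annihilator).restrictScalars k) =
    Fintype.card {s : ι // D.o (D.σ s) = 0} := by
  let v : {s : ι // D.o (D.σ s) = 0} → A := fun s => D.e s.1
  have hv : LinearIndependent k v := D.linInd.comp _ Subtype.val_injective
  have hspan : Submodule.span k (Set.range v) = (m.annihilator).restrictScalars k := by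
    apply le_antisymm
    · rw [Submodule.span_le]
      rintro _ ⟨s, rfl⟩
      have h1 : D.e s.1 ∈ (m ^ 1).annihilator := by
        rw [D.mem_annihilator_iff]
        intro t ht
        rw [repr_e] at ht
        have : s.1 = t := by
          by_contra hne
          rw [if_neg hne] at ht
          exact ht rfl
        rw [← this, s.2]; exact one_pos
      rw [pow_one] at h1
      exact h1
    · intro x hx
      have hx1 : x ∈ (m ^ 1).annihilator := by rw [pow_one]; exact hx
      rw [D.mem_annihilator_iff] at hx1
      rw [← D.basis.sum_repr x]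
      apply Submodule.sum_mem
      intro s _
      by_cases h0 : D.basis.repr x s = 0
      · rw [h0, zero_smul]; exact Submodule.zero_mem _
      · apply Submodule.smul_mem
        rw [basis_apply]
        apply Submodule.subset_span
        have := hx1 s h0
        exact ⟨⟨s, by omega⟩, rfl⟩
  rw [← hspan]
  exact finrank_span_eq_card hv

end Adapted

end Pool.Agent.Lib.MP_29aef5_ag
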