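import Mathlib
import Pool.Agent.Lib.MP_29aef5_ag.Defs
import Pool.Agent.Lib.MP_29aef5_ag.General
import Pool.Agent.Lib.MP_29aef5_ag.Adapted

/-!
The algebra with dual generator `X^[3] Y^[6] + Z Y^[7] + X^[8] + ∑ W_l^[2]`.
-/

namespace Pool.Agent.Lib.MP_29aef5_ag

open MvPowerSeries Finsupp

variable {τ : Type*} [Fintype τ] [DecidableEq τ]

/-- The variables other than `x, y, z`. -/
abbrev Others (p q s : τ) : Type _ := {l : τ // l ≠ p ∧ l ≠ q ∧ l ≠ s}

/-- The exponent of `x^a y^b z^c`. -/
noncomputable def M (p q s : τ) (a b c : ℕ) : τ →₀ ℕ := single p a + single q b + single s c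

section exps

variable {p q s : τ} (hpq : p ≠ q) (hps : p ≠ s) (hqs : q ≠ s)

include hpq hps hqs in
theorem M_p (a b c : ℕ) : M p q s a b c p = a := by
  simp [M, hpq.symm, hps.symm]

include hpq hps hqs in
theorem M_q (a b c : ℕ) : M p q s a b c q = b := by
  simp [M, hpq, hqs.symm]

include hpq hps hqs in
theorem M_s (a b c : ℕ) : M p q s a b c s = c := by
  simp [M, hps, hqs]

theorem M_other (l : Others p q s) (a b c : ℕ) : M p q s a b c l.1 = 0 := by
  simp [M, l.2.1.symm, l.2.2.1.symm, l.2.2.2.symm]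

theorem M_add (a b c a' b' c' : ℕ) :
    M p q s a b c + M p q s a' b' c' = M p q s (a + a') (b + b') (c + c') := by
  simp only [M, single_add]
  abel

include hpq hps hqs in
theorem M_le_iff (a b c a' b' c' : ℕ) :
    M p q s a b c ≤ M p q s a' b' c' ↔ a ≤ a' ∧ b ≤ b' ∧ c ≤ c' := by
  constructor
  · intro h
    refine ⟨?_, ?_, ?_⟩
    · have := h p; rwa [M_p hpq hps hqs, M_p hpq hps hqs] at this
    · have := h q; rwa [M_q hpq hps hqs, M_q hpq hps hqs] at this
    · have := h s; rwa [M_s hpq hps hqs, M_s hpq hps hqs] at this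
  · rintro ⟨h1, h2, h3⟩
    exact add_le_add (add_le_add (single_le_single.2 h1) (single_le_single.2 h2))
      (single_le_single.2 h3)

include hpq hps hqs in
theorem M_inj (a b c a' b' c' : ℕ) :
    M p q s a b c = M p q s a' b' c' ↔ a = a' ∧ b = b' ∧ c = c' := by
  constructor
  · intro h
    refine ⟨?_, ?_, ?_⟩
    · have := DFunLike.congr_fun h p; rwa [M_p hpq hps hqs, M_p hpq hps hqs] at this
    · have := DFunLike.congr_fun h q; rwa [M_q hpq hps hqs, M_q hpq hps hqs] at this
    · have := DFunLike.congr_fun h s; rwa [M_s hpq hps hqs, M_s hpq hps hqs] at this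
  · rintro ⟨rfl, rfl, rfl⟩; rfl

/-- Every exponent below `M a b c` is of the form `M a' b' c'`. -/
theorem eq_M_of_le {d : τ →₀ ℕ} {a b c : ℕ} (hpq : p ≠ q) (hps : p ≠ s) (hqs : q ≠ s)
    (h : d ≤ M p q s a b c) : d = M p q s (d p) (d q) (d s) := by
  ext l
  by_cases h1 : l = p
  · rw [h1, M_p hpq hps hqs]
  by_cases h2 : l = q
  · rw [h2, M_q hpq hps hqs]
  by_cases h3 : l = s
  · rw [h3, M_s hpq hps hqs]
  have h4 := h l
  rw [M_other ⟨l, h1, h2, h3⟩] at h4
  rw [M_other ⟨l, h1, h2, h3⟩]
  omega

theorem degree_M (a b c : ℕ) : (M p q s a b c).degree = a + b + c := by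
  simp [M]

end exps

variable (k : Type*) [Field k] (p q s : τ)

/-- The functional given by the dual generator. -/
noncomputable def Phi : MvPowerSeries τ k →ₗ[k] k :=
  coeff (M p q s 3 6 0) + coeff (M p q s 8 0 0) + coeff (M p q s 0 7 1) +
    ∑ l : Others p q s, coeff (single l.1 2)

theorem Phi_apply (g : MvPowerSeries τ k) :
    Phi k p q s g = coeff (M p q s 3 6 0) g + coeff (M p q s 8 0 0) g + coeff (M p q s 0 7 1) g +
      ∑ l : Others p q s, coeff (single l.1 2) g := by
  simp [Phi]

/-- The annihilator of the dual generator. -/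
noncomputable def annI : Ideal (MvPowerSeries τ k) where
  carrier := {g | ∀ h, Phi k p q s (g * h) = 0}
  add_mem' := by
    intro a b ha hb h
    rw [add_mul, map_add, ha, hb, add_zero]
  zero_mem' := by
    intro h
    rw [zero_mul, map_zero]
  smul_mem' := by
    intro c a ha h
    rw [smul_eq_mul, mul_comm c a, mul_assoc]
    exact ha _

theorem mem_annI (g : MvPowerSeries τ k) :
    g ∈ annI k p q s ↔ ∀ h, Phi k p q s (g * h) = 0 := Iff.rfl

/-- The functional induced on the quotient. -/
noncomputable def Phibar : (MvPowerSeries τ k ⧸ annI k p q s) →ₗ[k] k :=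
  (Submodule.liftQ ((annI k p q s).restrictScalars k) (Phi k p q s) (by
    intro g hg
    have := (mem_annI k p q s g).1 hg 1
    rw [mul_one] at this
    exact this)) ∘ₗ (Submodule.Quotient.restrictScalarsEquiv k (annI k p q s)).symm.toLinearMap

theorem Phibar_mk (g : MvPowerSeries τ k) :
    Phibar k p q s (Ideal.Quotient.mk (annI k p q s) g) = Phi k p q s g := rfl

/-- The class of the monomial with exponent `d`. -/
noncomputable def W (d : τ →₀ ℕ) : MvPowerSeries τ k ⧸ annI k p q s :=
  Ideal.Quotient.mk (annI k p q s) (monomial d 1)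

theorem W_mul (d d' : τ →₀ ℕ) : W k p q s d * W k p q s d' = W k p q s (d + d') := by
  rw [W, W, W, ← map_mul, monomial_mul_monomial, one_mul]

theorem Phibar_W (d : τ →₀ ℕ) : Phibar k p q s (W k p q s d) =
    (if M p q s 3 6 0 = d then 1 else 0) + (if M p q s 8 0 0 = d then 1 else 0) +
      (if M p q s 0 7 1 = d then 1 else 0) +
      ∑ l : Others p q s, (if single l.1 2 = d then 1 else 0) := by
  rw [W, Phibar_mk, Phi_apply]
  simp only [coeff_monomial]

section

variable {p q s} (hpq : p ≠ q) (hps : p ≠ s) (hqs : q ≠ s)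

include hpq hps hqs in
theorem Phibar_M (a b c : ℕ) : Phibar k p q s (W k p q s (M p q s a b c)) =
    if (a = 3 ∧ b = 6 ∧ c = 0) ∨ (a = 8 ∧ b = 0 ∧ c = 0) ∨ (a = 0 ∧ b = 7 ∧ c = 1)
      then 1 else 0 := by
  rw [Phibar_W]
  simp only [M_inj hpq hps hqs]
  have h0 : ∑ l : Others p q s, (if single l.1 2 = M p q s a b c then (1 : k) else 0) = 0 := by
    apply Finset.sum_eq_zero
    intro l _
    rw [if_neg]
    intro h
    have := DFunLike.congr_fun h l.1
    rw [M_other, single_eq_same] at this
    omega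
  rw [h0, add_zero]
  by_cases h1 : a = 3 ∧ b = 6 ∧ c = 0
  · obtain ⟨rfl, rfl, rfl⟩ := h1
    simp
  · by_cases h2 : a = 8 ∧ b = 0 ∧ c = 0
    · obtain ⟨rfl, rfl, rfl⟩ := h2
      simp
    · by_cases h3 : a = 0 ∧ b = 7 ∧ c = 1
      · obtain ⟨rfl, rfl, rfl⟩ := h3
        simp
      · rw [if_neg (by omega), if_neg (by omega), if_neg (by omega), if_neg (by omega)]
        simp

include hpq hps hqs in
theorem Phibar_M_other (a b c : ℕ) (l : Others p q s) :
    Phibar k p q s (W k p q s (M p q s a b c + single l.1 1)) = 0 := by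
  rw [Phibar_W]
  have key : ∀ a' b' c', M p q s a' b' c' ≠ M p q s a b c + single l.1 1 := by
    intro a' b' c' h
    have := DFunLike.congr_fun h l.1
    rw [M_other, Finsupp.add_apply, M_other, single_eq_same] at this
    omega
  rw [if_neg (key _ _ _), if_neg (key _ _ _), if_neg (key _ _ _)]
  rw [Finset.sum_eq_zero]
  · simp
  · intro l' _
    rw [if_neg]
    intro h
    have := DFunLike.congr_fun h l.1
    rw [Finsupp.add_apply, M_other, single_eq_same] at this
    by_cases h' : l'.1 = l.1
    · rw [h', single_eq_same] at this; omega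
    · rw [single_eq_of_ne (Ne.symm h')] at this; omega

theorem Phibar_other_other (l l' : Others p q s) :
    Phibar k p q s (W k p q s (single l.1 1 + single l'.1 1)) = if l' = l then 1 else 0 := by
  rw [Phibar_W]
  have key : ∀ a' b' c', M p q s a' b' c' ≠ single l.1 1 + single l'.1 1 := by
    intro a' b' c' h
    have := DFunLike.congr_fun h l.1
    rw [M_other, Finsupp.add_apply, single_eq_same] at this
    omega
  rw [if_neg (key _ _ _), if_neg (key _ _ _), if_neg (key _ _ _), zero_add, zero_add, zero_add]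
  by_cases h : l' = l
  · subst h
    rw [if_pos rfl, Finset.sum_eq_single l']
    · rw [if_pos]
      rw [← single_add]
    · intro l'' _ hne
      rw [if_neg]
      intro h
      have := DFunLike.congr_fun h l'.1
      rw [single_eq_of_ne (by intro h'; exact hne (Subtype.ext h'.symm)), Finsupp.add_apply,
        single_eq_same] at this
      omega
    · intro h'; exact absurd (Finset.mem_univ _) h'
  · rw [if_neg h]
    apply Finset.sum_eq_zero
    intro l'' _
    rw [if_neg]
    intro h2
    have h3 := DFunLike.congr_fun h2 l.1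
    have h4 := DFunLike.congr_fun h2 l'.1
    have hne : l'.1 ≠ l.1 := fun h' => h (Subtype.ext h')
    rw [Finsupp.add_apply, single_eq_same, single_eq_of_ne hne.symm] at h3
    rw [Finsupp.add_apply, single_eq_same, single_eq_of_ne hne] at h4
    by_cases h5 : l''.1 = l.1
    · rw [h5, single_eq_same] at h3; omega
    · rw [single_eq_of_ne (Ne.symm h5)] at h3; omega

/-! ### Relations -/

theorem W_eq_of (d d' : τ →₀ ℕ) (h : ∀ g : MvPowerSeries τ k,
    Phi k p q s (monomial d 1 * g) = Phi k p q s (monomial d' 1 * g)) :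
    W k p q s d = W k p q s d' := by
  rw [W, W, Ideal.Quotient.eq, mem_annI]
  intro g
  rw [sub_mul, map_sub, h, sub_self]

theorem Phi_monomial_mul (d : τ →₀ ℕ) (g : MvPowerSeries τ k) :
    Phi k p q s (monomial d 1 * g) =
      (if d ≤ M p q s 3 6 0 then coeff (M p q s 3 6 0 - d) g else 0) +
      (if d ≤ M p q s 8 0 0 then coeff (M p q s 8 0 0 - d) g else 0) +
      (if d ≤ M p q s 0 7 1 then coeff (M p q s 0 7 1 - d) g else 0) +
      ∑ l : Others p q s, (if d ≤ single l.1 2 then coeff (single l.1 2 - d) g else 0) := by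
  rw [Phi_apply]
  simp only [coeff_monomial_mul, one_mul]

include hpq hps hqs in
theorem sum_M_eq_zero (a b c : ℕ) (h : 0 < a + b + c) (g : MvPowerSeries τ k) :
    ∑ l : Others p q s, (if M p q s a b c ≤ single l.1 2 then
      coeff (single l.1 2 - M p q s a b c) g else 0) = 0 := by
  apply Finset.sum_eq_zero
  intro l _
  rw [if_neg]
  intro h'
  have h1 := h' p
  have h2 := h' q
  have h3 := h' s
  rw [M_p hpq hps hqs, single_eq_of_ne l.2.1.symm] at h1
  rw [M_q hpq hps hqs, single_eq_of_ne l.2.2.1.symm] at h2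
  rw [M_s hpq hps hqs, single_eq_of_ne l.2.2.2.symm] at h3
  omega

theorem M_sub (a b c a' b' c' : ℕ) (ha : a' ≤ a) (hb : b' ≤ b) (hc : c' ≤ c) :
    M p q s a b c - M p q s a' b' c' = M p q s (a - a') (b - b') (c - c') := by
  have : M p q s a b c = M p q s (a - a') (b - b') (c - c') + M p q s a' b' c' := by
    rw [M_add, Nat.sub_add_cancel ha, Nat.sub_add_cancel hb, Nat.sub_add_cancel hc]
  rw [this, add_tsub_cancel_right]

include hpq hps hqs in
theorem rel1 : W k p q s (M p q s 6 0 0) = W k p q s (M p q s 1 6 0) := by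
  apply W_eq_of
  intro g
  rw [Phi_monomial_mul, Phi_monomial_mul, sum_M_eq_zero k hpq hps hqs _ _ _ (by norm_num),
    sum_M_eq_zero k hpq hps hqs _ _ _ (by norm_num)]
  simp only [M_le_iff hpq hps hqs]
  norm_num
  rw [M_sub _ _ _ _ _ _ (by norm_num) (by norm_num) (by norm_num),
    M_sub _ _ _ _ _ _ (by norm_num) (by norm_num) (by norm_num)]

include hpq hps hqs in
theorem rel2 : W k p q s (M p q s 0 2 1) = W k p q s (M p q s 3 1 0) := by
  apply W_eq_of
  intro g
  rw [Phi_monomial_mul, Phi_monomial_mul, sum_M_eq_zero k hpq hps hqs _ _ _ (by norm_num),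
    sum_M_eq_zero k hpq hps hqs _ _ _ (by norm_num)]
  simp only [M_le_iff hpq hps hqs]
  norm_num
  rw [M_sub _ _ _ _ _ _ (by norm_num) (by norm_num) (by norm_num),
    M_sub _ _ _ _ _ _ (by norm_num) (by norm_num) (by norm_num)]

include hpq hps hqs in
theorem rel3 (l : Others p q s) : W k p q s (single l.1 2) = W k p q s (M p q s 3 6 0) := by
  apply W_eq_of
  intro g
  rw [Phi_monomial_mul, Phi_monomial_mul, sum_M_eq_zero k hpq hps hqs _ _ _ (by norm_num)]
  have key : ∀ a b c, ¬ (single l.1 2 ≤ M p q s a b c) := by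
    intro a b c h
    have := h l.1
    rw [M_other, single_eq_same] at this
    omega
  rw [if_neg (key _ _ _), if_neg (key _ _ _), if_neg (key _ _ _), if_pos le_rfl]
  rw [Finset.sum_eq_single l]
  · rw [if_pos le_rfl]
    simp only [M_le_iff hpq hps hqs]
    norm_num
  · intro l' _ hne
    rw [if_neg]
    intro h
    have := h l.1
    rw [single_eq_same, single_eq_of_ne (fun h' => hne (Subtype.ext h'.symm))] at this
    omega
  · intro h'; exact absurd (Finset.mem_univ _) h'

end

end Pool.Agent.Lib.MP_29aef5_ag
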