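import Mathlib
import Pool.Agent.Lib.MP_29aef5_ag.Defs
import Pool.Agent.Lib.MP_29aef5_ag.General
import Pool.Agent.Lib.MP_29aef5_ag.Adapted
import Pool.Agent.Lib.MP_29aef5_ag.Example

/-!
Powers of the maximal ideal of the example, and its adapted basis.
-/

set_option linter.unusedSectionVars false

namespace Pool.Agent.Lib.MP_29aef5_ag

open MvPowerSeries Finsupp

variable {τ : Type*} [Fintype τ] [DecidableEq τ] (k : Type*) [Field k] {p q s : τ}

/-- Exponents which matter. -/
noncomputable def expSet (p q s : τ) : Finset (τ →₀ ℕ) :=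
  Finset.Iic (M p q s 3 6 0) ∪ Finset.Iic (M p q s 8 0 0) ∪ Finset.Iic (M p q s 0 7 1) ∪
    Finset.univ.biUnion (fun l : Others p q s => Finset.Iic (single l.1 2))

theorem mem_annI_of_coeff (g : MvPowerSeries τ k) (hg : ∀ d ∈ expSet p q s, coeff d g = 0) :
    g ∈ annI k p q s := by
  rw [mem_annI]
  intro h
  have key : ∀ t : τ →₀ ℕ, (∀ d, d ≤ t → coeff d g = 0) → coeff t (g * h) = 0 := by
    intro t ht
    rw [coeff_mul]
    apply Finset.sum_eq_zero
    intro x hx
    rw [Finset.HasAntidiagonal.mem_antidiagonal] at hx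
    rw [ht x.1 (by rw [← hx]; exact le_self_add), zero_mul]
  rw [Phi_apply, key, key, key, Finset.sum_eq_zero]
  · simp
  · intro l _
    apply key
    intro d hd
    apply hg
    rw [expSet, Finset.mem_union]
    right
    rw [Finset.mem_biUnion]
    exact ⟨l, Finset.mem_univ _, Finset.mem_Iic.2 hd⟩
  · intro d hd
    apply hg
    simp only [expSet, Finset.mem_union, Finset.mem_Iic]
    left; right; exact hd
  · intro d hd
    apply hg
    simp only [expSet, Finset.mem_union, Finset.mem_Iic]
    left; left; right; exact hd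
  · intro d hd
    apply hg
    simp only [expSet, Finset.mem_union, Finset.mem_Iic]
    left; left; left; exact hd

theorem mk_eq_sum (g : MvPowerSeries τ k) :
    Ideal.Quotient.mk (annI k p q s) g = ∑ d ∈ expSet p q s, coeff d g • W k p q s d := by
  have h1 : Ideal.Quotient.mk (annI k p q s) (∑ d ∈ expSet p q s, coeff d g •
      (monomial d 1 : MvPowerSeries τ k)) = ∑ d ∈ expSet p q s, coeff d g • W k p q s d := by
    rw [map_sum]
    apply Finset.sum_congr rfl
    intro d _
    rfl
  rw [← h1, Ideal.Quotient.eq]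
  apply mem_annI_of_coeff
  intro d hd
  rw [map_sub, map_sum, Finset.sum_eq_single d]
  · rw [map_smul, coeff_monomial_same, smul_eq_mul, mul_one, sub_self]
  · intro d' _ hne
    rw [map_smul, coeff_monomial_ne hne.symm, smul_zero]
  · intro h; exact absurd hd h

theorem mem_maximalIdeal_iff (g : MvPowerSeries τ k) :
    g ∈ IsLocalRing.maximalIdeal (MvPowerSeries τ k) ↔ coeff 0 g = 0 := by
  rw [IsLocalRing.mem_maximalIdeal, mem_nonunits_iff, MvPowerSeries.isUnit_iff_constantCoeff,
    isUnit_iff_ne_zero, not_not, coeff_zero_eq_constantCoeff]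

theorem coeff_eq_zero_of_mem_pow (i : ℕ) (g : MvPowerSeries τ k)
    (hg : g ∈ IsLocalRing.maximalIdeal (MvPowerSeries τ k) ^ i) (d : τ →₀ ℕ)
    (hd : d.degree < i) : coeff d g = 0 := by
  induction i generalizing g d with
  | zero => omega
  | succ i ih =>
    rw [pow_succ] at hg
    induction hg using Submodule.mul_induction_on' with
    | mem_mul_mem u hu v hv =>
      rw [mem_maximalIdeal_iff] at hv
      rw [coeff_mul]
      apply Finset.sum_eq_zero
      intro x hx
      rw [Finset.HasAntidiagonal.mem_antidiagonal] at hx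
      by_cases h0 : x.2 = 0
      · rw [h0, hv, mul_zero]
      · rw [ih u hu x.1 ?_, zero_mul]
        have h1 : x.1.degree + x.2.degree = d.degree := by rw [← hx, map_add]
        have h2 : x.2.degree ≠ 0 := by
          rw [Ne, Finsupp.degree_eq_zero_iff]; exact h0
        omega
    | add u _ v _ hu hv => rw [map_add, hu, hv, add_zero]

theorem monomial_mem_pow (d : τ →₀ ℕ) :
    (monomial d 1 : MvPowerSeries τ k) ∈
      IsLocalRing.maximalIdeal (MvPowerSeries τ k) ^ d.degree := by
  induction d using Finsupp.induction_linear with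
  | zero =>
    simp only [map_zero, pow_zero, Ideal.one_eq_top]
    exact Submodule.mem_top
  | add f g hf hg =>
    have h := Ideal.mul_mem_mul hf hg
    rw [monomial_mul_monomial, one_mul, ← pow_add] at h
    rw [map_add]; exact h
  | single l n =>
    rw [degree_single]
    have h1 : (monomial (single l n) 1 : MvPowerSeries τ k) = (X l) ^ n := by
      rw [X_pow_eq]
    rw [h1]
    apply Ideal.pow_mem_pow
    rw [mem_maximalIdeal_iff, coeff_zero_X]

/-- The index set of the basis. -/
abbrev Idx (p q s : τ) : Type _ := (Fin 4 × Fin 7) ⊕ (Fin 5 ⊕ Others p q s)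

/-- The five special basis elements. -/
noncomputable def spec (k : Type*) [Field k] (p q s : τ) (i : Fin 5) :
    MvPowerSeries τ k ⧸ annI k p q s :=
  ![W k p q s (M p q s 4 0 0), W k p q s (M p q s 5 0 0) - W k p q s (M p q s 0 6 0),
    W k p q s (M p q s 0 7 0), W k p q s (M p q s 0 0 1),
    W k p q s (M p q s 0 1 1) - W k p q s (M p q s 3 0 0)] i

/-- The basis elements. -/
noncomputable def eB (k : Type*) [Field k] (p q s : τ) :
    Idx p q s → MvPowerSeries τ k ⧸ annI k p q s :=
  Sum.elim (fun ab => W k p q s (M p q s ab.1 ab.2 0))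
    (Sum.elim (spec k p q s) (fun l => W k p q s (single l.1 1)))

/-- Their orders. -/
def oB (p q s : τ) : Idx p q s → ℕ :=
  Sum.elim (fun ab => ab.1 + ab.2) (Sum.elim ![4, 5, 7, 1, 2] (fun _ => 1))

/-- The duality permutation. -/
def σB (p q s : τ) : Idx p q s → Idx p q s :=
  Sum.elim (fun ab => Sum.inl (Fin.rev ab.1, Fin.rev ab.2))
    (Sum.elim (fun i => Sum.inr (Sum.inl (![0, 4, 3, 2, 1] i))) (fun l => Sum.inr (Sum.inr l)))

/-- The signs. -/
def cB (k : Type*) [Field k] (p q s : τ) : Idx p q s → k :=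
  Sum.elim (fun _ => 1) (Sum.elim ![1, -1, 1, 1, -1] (fun _ => 1))

theorem σσB (x : Idx p q s) : σB p q s (σB p q s x) = x := by
  rcases x with ⟨a, b⟩ | i | l
  · simp [σB]
  · fin_cases i <;> rfl
  · rfl

theorem cB_ne (x : Idx p q s) : cB k p q s x ≠ 0 := by
  rcases x with ⟨a, b⟩ | i | l
  · simp [cB]
  · fin_cases i <;> simp [cB]
  · simp [cB]

section

variable (hpq : p ≠ q) (hps : p ≠ s) (hqs : q ≠ s)

include hpq hps hqs

theorem pair_inl_inl (a a' : Fin 4) (b b' : Fin 7) :
    Phibar k p q s (W k p q s (M p q s a b 0) * W k p q s (M p q s a' b' 0)) =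
      if (Sum.inl (a', b') : Idx p q s) = σB p q s (Sum.inl (a, b)) then cB k p q s (Sum.inl (a, b))
        else 0 := by
  rw [W_mul, M_add, Phibar_M k hpq hps hqs]
  have ha := a.2
  have ha' := a'.2
  have hb := b.2
  have hb' := b'.2
  by_cases h : (a : ℕ) + a' = 3 ∧ (b : ℕ) + b' = 6
  · rw [if_pos (by omega), if_pos]
    · simp [cB]
    · simp only [σB, Sum.elim_inl, Sum.inl.injEq, Prod.mk.injEq, Fin.ext_iff, Fin.val_rev]
      omega
  · rw [if_neg (by omega), if_neg]
    simp only [σB, Sum.elim_inl, Sum.inl.injEq, Prod.mk.injEq, Fin.ext_iff, Fin.val_rev]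
    omega

theorem pair_inl_spec (a : Fin 4) (b : Fin 7) (i : Fin 5) :
    Phibar k p q s (W k p q s (M p q s a b 0) * spec k p q s i) = 0 := by
  have ha := a.2
  have hb := b.2
  fin_cases i
  · simp only [spec, Fin.zero_eta, Matrix.cons_val_zero]
    rw [W_mul, M_add, Phibar_M k hpq hps hqs, if_neg (by omega)]
  · simp only [spec, Fin.mk_one, Matrix.cons_val_one, Matrix.cons_val_zero]
    rw [mul_sub, map_sub, W_mul, M_add, Phibar_M k hpq hps hqs, W_mul, M_add,
      Phibar_M k hpq hps hqs]
    by_cases h : (a : ℕ) = 3 ∧ (b : ℕ) = 0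
    · rw [if_pos (by omega), if_pos (by omega), sub_self]
    · rw [if_neg (by omega), if_neg (by omega), sub_self]
  · simp only [spec, Fin.reduceFinMk, Matrix.cons_val]
    rw [W_mul, M_add, Phibar_M k hpq hps hqs, if_neg (by omega)]
  · simp only [spec, Fin.reduceFinMk, Matrix.cons_val]
    rw [W_mul, M_add, Phibar_M k hpq hps hqs, if_neg (by omega)]
  · simp only [spec, Fin.reduceFinMk, Matrix.cons_val]
    rw [mul_sub, map_sub, W_mul, M_add, Phibar_M k hpq hps hqs, W_mul, M_add,
      Phibar_M k hpq hps hqs]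
    by_cases h : (a : ℕ) = 0 ∧ (b : ℕ) = 6
    · rw [if_pos (by omega), if_pos (by omega), sub_self]
    · rw [if_neg (by omega), if_neg (by omega), sub_self]

theorem pair_spec_spec (i j : Fin 5) :
    Phibar k p q s (spec k p q s i * spec k p q s j) =
      if (Sum.inr (Sum.inl j) : Idx p q s) = σB p q s (Sum.inr (Sum.inl i)) then
        cB k p q s (Sum.inr (Sum.inl i)) else 0 := by
  fin_cases i <;> fin_cases j <;>
  simp only [spec, Fin.zero_eta, Fin.mk_one, Fin.reduceFinMk, Matrix.cons_val_zero,
    Matrix.cons_val_one, Matrix.cons_val, mul_sub, sub_mul, map_sub, W_mul, M_add,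
    Phibar_M k hpq hps hqs, σB, cB, Sum.elim_inl, Sum.elim_inr, Sum.inr.injEq, Sum.inl.injEq] <;>
  norm_num <;> decide

theorem pair_M_other (a b c : ℕ) (l : Others p q s) :
    Phibar k p q s (W k p q s (M p q s a b c) * W k p q s (single l.1 1)) = 0 := by
  rw [W_mul, Phibar_M_other k hpq hps hqs]

theorem pair_spec_other (i : Fin 5) (l : Others p q s) :
    Phibar k p q s (spec k p q s i * W k p q s (single l.1 1)) = 0 := by
  fin_cases i <;>
  simp only [spec, Fin.zero_eta, Fin.mk_one, Fin.reduceFinMk, Matrix.cons_val_zero,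
    Matrix.cons_val_one, Matrix.cons_val, sub_mul, map_sub,
    pair_M_other k hpq hps hqs, sub_zero]

theorem pairB (x y : Idx p q s) :
    Phibar k p q s (eB k p q s x * eB k p q s y) =
      if y = σB p q s x then cB k p q s x else 0 := by
  rcases x with ⟨a, b⟩ | i | l
  · rcases y with ⟨a', b'⟩ | j | l'
    · exact pair_inl_inl k hpq hps hqs a a' b b'
    · rw [if_neg (by simp [σB])]
      exact pair_inl_spec k hpq hps hqs a b j
    · rw [if_neg (by simp [σB])]
      exact pair_M_other k hpq hps hqs _ _ _ _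
  · rcases y with ⟨a', b'⟩ | j | l'
    · rw [if_neg (by simp [σB]), mul_comm]
      exact pair_inl_spec k hpq hps hqs a' b' i
    · exact pair_spec_spec k hpq hps hqs i j
    · rw [if_neg (by simp [σB])]
      exact pair_spec_other k hpq hps hqs i l'
  · rcases y with ⟨a', b'⟩ | j | l'
    · rw [if_neg (by simp [σB]), mul_comm]
      exact pair_M_other k hpq hps hqs _ _ _ _
    · rw [if_neg (by simp [σB]), mul_comm]
      exact pair_spec_other k hpq hps hqs j l
    · change Phibar k p q s (W k p q s (single l.1 1) * W k p q s (single l'.1 1)) = _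
      rw [W_mul, Phibar_other_other]
      simp [σB, cB]

end

end Pool.Agent.Lib.MP_29aef5_ag
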