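import Mathlib
import Pool.Agent.Lib.MP_29aef5_ag.Defs
import Pool.Agent.Lib.MP_29aef5_ag.General
import Pool.Agent.Lib.MP_29aef5_ag.Adapted
import Pool.Agent.Lib.MP_29aef5_ag.Example
import Pool.Agent.Lib.MP_29aef5_ag.Example2

/-!
The adapted basis of the example, and its consequences.
-/

set_option linter.unusedSectionVars false

namespace Pool.Agent.Lib.MP_29aef5_ag

open MvPowerSeries Finsupp

variable {τ : Type*} [Fintype τ] [DecidableEq τ] (k : Type*) [Field k] {p q s : τ}

/-- The maximal ideal of the example. -/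
noncomputable def mB (k : Type*) [Field k] (p q s : τ) :
    Ideal (MvPowerSeries τ k ⧸ annI k p q s) :=
  (IsLocalRing.maximalIdeal (MvPowerSeries τ k)).map (Ideal.Quotient.mk (annI k p q s))

theorem W_mem_pow (d : τ →₀ ℕ) {i : ℕ} (h : i ≤ d.degree) : W k p q s d ∈ mB k p q s ^ i := by
  rw [mB, ← Ideal.map_pow]
  exact Ideal.mem_map_of_mem _ (Ideal.pow_le_pow_right h (monomial_mem_pow k d))

/-- The span of the basis elements of order at least `i`. -/
noncomputable def spanB (k : Type*) [Field k] (p q s : τ) (i : ℕ) :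
    Submodule k (MvPowerSeries τ k ⧸ annI k p q s) :=
  Submodule.span k (eB k p q s '' {x | i ≤ oB p q s x})

theorem eB_mem_spanB (x : Idx p q s) {i : ℕ} (h : i ≤ oB p q s x) :
    eB k p q s x ∈ spanB k p q s i :=
  Submodule.subset_span ⟨x, h, rfl⟩

theorem W_ab_mem (a b : ℕ) (ha : a ≤ 3) (hb : b ≤ 6) {i : ℕ} (h : i ≤ a + b) :
    W k p q s (M p q s a b 0) ∈ spanB k p q s i :=
  eB_mem_spanB k (Sum.inl (⟨a, by omega⟩, ⟨b, by omega⟩)) h

theorem spec_mem (j : Fin 5) {i : ℕ} (h : i ≤ (![4, 5, 7, 1, 2] : Fin 5 → ℕ) j) :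
    spec k p q s j ∈ spanB k p q s i :=
  eB_mem_spanB k (Sum.inr (Sum.inl j)) h

section

variable (hpq : p ≠ q) (hps : p ≠ s) (hqs : q ≠ s)

include hpq hps hqs

theorem W_x_mem (a : ℕ) (ha : a ≤ 8) {i : ℕ} (h : i ≤ a) :
    W k p q s (M p q s a 0 0) ∈ spanB k p q s i := by
  by_cases h3 : a ≤ 3
  · exact W_ab_mem k a 0 h3 (by norm_num) (by omega)
  · have hc : a = 4 ∨ a = 5 ∨ a = 6 ∨ a = 7 ∨ a = 8 := by omega
    rcases hc with rfl | rfl | rfl | rfl | rfl
    · exact spec_mem k 0 (by simpa using h)
    · have h1 := spec_mem (p := p) (q := q) (s := s) k 1 (i := i) (by simpa using h)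
      have h2 := W_ab_mem (p := p) (q := q) (s := s) k 0 6 (by norm_num) (by norm_num) (i := i)
        (by omega)
      have h3 := Submodule.add_mem _ h1 h2
      convert h3 using 1
      simp [spec]
    · rw [rel1 k hpq hps hqs]
      exact W_ab_mem k 1 6 (by norm_num) (by norm_num) (by omega)
    · have : W k p q s (M p q s 7 0 0) = W k p q s (M p q s 2 6 0) := by
        have := congrArg (fun u => u * W k p q s (M p q s 1 0 0)) (rel1 k hpq hps hqs)
        simpa only [W_mul, M_add] using this
      rw [this]
      exact W_ab_mem k 2 6 (by norm_num) (by norm_num) (by omega)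
    · have : W k p q s (M p q s 8 0 0) = W k p q s (M p q s 3 6 0) := by
        have := congrArg (fun u => u * W k p q s (M p q s 2 0 0)) (rel1 k hpq hps hqs)
        simpa only [W_mul, M_add] using this
      rw [this]
      exact W_ab_mem k 3 6 (by norm_num) (by norm_num) (by omega)

theorem W_yz_mem (b c : ℕ) (hb : b ≤ 7) (hc : c ≤ 1) {i : ℕ} (h : i ≤ b + c) :
    W k p q s (M p q s 0 b c) ∈ spanB k p q s i := by
  by_cases hc0 : c = 0
  · subst hc0
    by_cases hb6 : b ≤ 6
    · exact W_ab_mem k 0 b (by norm_num) hb6 (by omega)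
    · have : b = 7 := by omega
      subst this
      exact spec_mem k 2 (by simpa using h)
  · have : c = 1 := by omega
    subst this
    by_cases hb0 : b = 0
    · subst hb0
      exact spec_mem k 3 (by simpa using h)
    by_cases hb1 : b = 1
    · subst hb1
      have h1 := spec_mem (p := p) (q := q) (s := s) k 4 (i := i) (by simpa using h)
      have h2 := W_ab_mem (p := p) (q := q) (s := s) k 3 0 (by norm_num) (by norm_num) (i := i)
        (by omega)
      have h3 := Submodule.add_mem _ h1 h2
      convert h3 using 1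
      simp [spec]
    · obtain ⟨b', rfl⟩ : ∃ b', b = b' + 2 := ⟨b - 2, by omega⟩
      have : W k p q s (M p q s 0 (b' + 2) 1) = W k p q s (M p q s 3 (b' + 1) 0) := by
        have := congrArg (fun u => W k p q s (M p q s 0 b' 0) * u) (rel2 k hpq hps hqs)
        simpa only [W_mul, M_add, Nat.zero_add, Nat.add_zero] using this
      rw [this]
      exact W_ab_mem k 3 (b' + 1) (by norm_num) (by omega) (by omega)

theorem W_mem_spanB (d : τ →₀ ℕ) (hd : d ∈ expSet p q s) {i : ℕ} (h : i ≤ d.degree) :
    W k p q s d ∈ spanB k p q s i := by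
  simp only [expSet, Finset.mem_union, Finset.mem_Iic, Finset.mem_biUnion, Finset.mem_univ,
    true_and] at hd
  rcases hd with ((hd | hd) | hd) | ⟨l, hd⟩
  · have he := eq_M_of_le hpq hps hqs hd
    rw [he, M_le_iff hpq hps hqs] at hd
    rw [he, degree_M] at h
    have h0 : d s = 0 := by omega
    rw [he, h0]
    exact W_ab_mem k _ _ hd.1 hd.2.1 (by omega)
  · have he := eq_M_of_le hpq hps hqs hd
    rw [he, M_le_iff hpq hps hqs] at hd
    rw [he, degree_M] at h
    have h0 : d s = 0 := by omega
    have h1 : d q = 0 := by omega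
    rw [he, h0, h1]
    exact W_x_mem k hpq hps hqs _ hd.1 (by omega)
  · have he := eq_M_of_le hpq hps hqs hd
    rw [he, M_le_iff hpq hps hqs] at hd
    rw [he, degree_M] at h
    have h0 : d p = 0 := by omega
    rw [he, h0]
    exact W_yz_mem k hpq hps hqs _ _ hd.2.1 hd.2.2 (by omega)
  · have he : d = single l.1 (d l.1) := by
      ext t
      by_cases ht : t = l.1
      · rw [ht, single_eq_same]
      · have := hd t
        rw [single_eq_of_ne ht] at this
        rw [single_eq_of_ne ht]
        omega
    have h2 : d l.1 ≤ 2 := by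
      have := hd l.1
      rwa [single_eq_same] at this
    rw [he, degree_single] at h
    rw [he]
    have hc : d l.1 = 0 ∨ d l.1 = 1 ∨ d l.1 = 2 := by omega
    rcases hc with hc | hc | hc
    · rw [hc, single_zero]
      have : (0 : τ →₀ ℕ) = M p q s 0 0 0 := by simp [M]
      rw [this]
      exact W_ab_mem k 0 0 (by norm_num) (by norm_num) (by omega)
    · rw [hc]
      exact eB_mem_spanB k (Sum.inr (Sum.inr l)) (by
        change i ≤ 1
        omega)
    · rw [hc, rel3 k hpq hps hqs]
      exact W_ab_mem k 3 6 (by norm_num) (by norm_num) (by omega)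

theorem pow_eqB (i : ℕ) : (mB k p q s ^ i).restrictScalars k = spanB k p q s i := by
  apply le_antisymm
  · intro x hx
    have hx' : x ∈ mB k p q s ^ i := hx
    rw [mB, ← Ideal.map_pow, Ideal.mem_map_iff_of_surjective _ Ideal.Quotient.mk_surjective]
      at hx'
    obtain ⟨g, hg, rfl⟩ := hx'
    rw [mk_eq_sum]
    apply Submodule.sum_mem
    intro d hd
    by_cases h : i ≤ d.degree
    · exact Submodule.smul_mem _ _ (W_mem_spanB k hpq hps hqs d hd h)
    · rw [coeff_eq_zero_of_mem_pow k i g hg d (by omega), zero_smul]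
      exact Submodule.zero_mem _
  · rw [spanB, Submodule.span_le]
    rintro _ ⟨x, hx, rfl⟩
    have hx' : i ≤ oB p q s x := hx
    change eB k p q s x ∈ mB k p q s ^ i
    rcases x with ⟨a, b⟩ | j | l
    · apply W_mem_pow
      rw [degree_M]
      exact hx'
    · change spec k p q s j ∈ _
      have hx2 : i ≤ (![4, 5, 7, 1, 2] : Fin 5 → ℕ) j := hx'
      fin_cases j
      · apply W_mem_pow; rw [degree_M]; simpa using hx2
      · have hx3 : i ≤ 5 := by simpa using hx2
        apply Ideal.sub_mem
        · apply W_mem_pow; rw [degree_M]; omega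
        · apply W_mem_pow; rw [degree_M]; omega
      · apply W_mem_pow; rw [degree_M]; simpa using hx2
      · apply W_mem_pow; rw [degree_M]; simpa using hx2
      · have hx3 : i ≤ 2 := by simpa using hx2
        apply Ideal.sub_mem
        · apply W_mem_pow; rw [degree_M]; omega
        · apply W_mem_pow; rw [degree_M]; omega
    · apply W_mem_pow
      rw [degree_single]
      exact hx'

/-- The adapted basis. -/
noncomputable def adaptedB : Adapted k (mB k p q s) (Idx p q s) where
  e := eB k p q s
  o := oB p q s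
  σ := σB p q s
  c := cB k p q s
  Φ := Phibar k p q s
  σσ := σσB
  c_ne := cB_ne k
  pair := pairB k hpq hps hqs
  pow_eq := pow_eqB k hpq hps hqs

theorem socleDegreeB : socleDegree (mB k p q s) = 9 := by
  apply (adaptedB k hpq hps hqs).socleDegree_eq
  · exact ⟨Sum.inl (3, 6), rfl⟩
  · intro x
    change oB p q s x ≤ 9
    rcases x with ⟨a, b⟩ | j | l
    · change (a : ℕ) + b ≤ 9
      omega
    · fin_cases j <;> simp [oB]
    · simp [oB]

theorem finrankB (a i : ℕ) :
    Module.finrank k (gradedC k (mB k p q s) a i) =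
      Fintype.card {x : Idx p q s // oB p q s x = i ∧ oB p q s (σB p q s x) < 10 - a - i} := by
  have h := (adaptedB k hpq hps hqs).finrank_gradedC a i
  rw [socleDegreeB k hpq hps hqs] at h
  exact h

end

/-- Counting in the index set. -/
theorem card_Idx (P : Idx p q s → Prop) [DecidablePred P] :
    Fintype.card {x : Idx p q s // P x} =
      Fintype.card {ab : Fin 4 × Fin 7 // P (Sum.inl ab)} +
        (Fintype.card {j : Fin 5 // P (Sum.inr (Sum.inl j))} +
          Fintype.card {l : Others p q s // P (Sum.inr (Sum.inr l))}) := by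
  rw [Fintype.card_subtype, Fintype.card_subtype, Fintype.card_subtype, Fintype.card_subtype]
  simp only [Finset.card_filter, Fintype.sum_sum_type]

end Pool.Agent.Lib.MP_29aef5_ag
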