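import Mathlib
import Pool.Agent.Lib.MP_29aef5_ag.Defs
import Pool.Agent.Lib.MP_29aef5_ag.General
import Pool.Agent.Lib.MP_29aef5_ag.Adapted
import Pool.Agent.Lib.MP_29aef5_ag.Example
import Pool.Agent.Lib.MP_29aef5_ag.Example2
import Pool.Agent.Lib.MP_29aef5_ag.Example3

/-!
The symmetric decomposition of the example, as far as it is needed.
-/

set_option linter.unusedSectionVars false

namespace Pool.Agent.Lib.MP_29aef5_ag

open MvPowerSeries Finsupp

variable {τ : Type*} [Fintype τ] [DecidableEq τ] (k : Type*) [Field k] {p q s : τ}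
variable (hpq : p ≠ q) (hps : p ≠ s) (hqs : q ≠ s)

include hpq hps hqs

theorem finrankB' (a i : ℕ) :
    Module.finrank k (gradedC k (mB k p q s) a i) =
      Fintype.card {ab : Fin 4 × Fin 7 //
          (ab.1 : ℕ) + ab.2 = i ∧ ((Fin.rev ab.1 : Fin 4) : ℕ) + (Fin.rev ab.2 : Fin 7) < 10 - a - i} +
        (Fintype.card {j : Fin 5 // (![4, 5, 7, 1, 2] : Fin 5 → ℕ) j = i ∧
            (![4, 5, 7, 1, 2] : Fin 5 → ℕ) ((![0, 4, 3, 2, 1] : Fin 5 → Fin 5) j) < 10 - a - i} +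
          Fintype.card {_l : Others p q s // 1 = i ∧ 1 < 10 - a - i}) := by
  rw [finrankB k hpq hps hqs, card_Idx]
  rfl

theorem c01 : Module.finrank k (gradedC k (mB k p q s) 0 1) = 3 + Fintype.card (Others p q s) := by
  rw [finrankB' k hpq hps hqs]
  have h1 : Fintype.card {_l : Others p q s // 1 = 1 ∧ 1 < 10 - 0 - 1} =
      Fintype.card (Others p q s) := by
    simp [Fintype.card_subtype]
  rw [h1]
  have h2 : Fintype.card {ab : Fin 4 × Fin 7 //
          (ab.1 : ℕ) + ab.2 = 1 ∧ ((Fin.rev ab.1 : Fin 4) : ℕ) + (Fin.rev ab.2 : Fin 7) < 10 - 0 - 1} = 2 := by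
    decide
  have h3 : Fintype.card {j : Fin 5 // (![4, 5, 7, 1, 2] : Fin 5 → ℕ) j = 1 ∧
            (![4, 5, 7, 1, 2] : Fin 5 → ℕ) ((![0, 4, 3, 2, 1] : Fin 5 → Fin 5) j) < 10 - 0 - 1} = 1 := by
    decide
  rw [h2, h3]
  ring

theorem c11 : Module.finrank k (gradedC k (mB k p q s) 1 1) = 1 + Fintype.card (Others p q s) := by
  rw [finrankB' k hpq hps hqs]
  have h1 : Fintype.card {_l : Others p q s // 1 = 1 ∧ 1 < 10 - 1 - 1} =
      Fintype.card (Others p q s) := by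
    simp [Fintype.card_subtype]
  rw [h1]
  have h2 : Fintype.card {ab : Fin 4 × Fin 7 //
          (ab.1 : ℕ) + ab.2 = 1 ∧ ((Fin.rev ab.1 : Fin 4) : ℕ) + (Fin.rev ab.2 : Fin 7) < 10 - 1 - 1} = 0 := by
    decide
  have h3 : Fintype.card {j : Fin 5 // (![4, 5, 7, 1, 2] : Fin 5 → ℕ) j = 1 ∧
            (![4, 5, 7, 1, 2] : Fin 5 → ℕ) ((![0, 4, 3, 2, 1] : Fin 5 → Fin 5) j) < 10 - 1 - 1} = 1 := by
    decide
  rw [h2, h3]
  ring

theorem c21 : Module.finrank k (gradedC k (mB k p q s) 2 1) = Fintype.card (Others p q s) := by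
  rw [finrankB' k hpq hps hqs]
  have h1 : Fintype.card {_l : Others p q s // 1 = 1 ∧ 1 < 10 - 2 - 1} =
      Fintype.card (Others p q s) := by
    simp [Fintype.card_subtype]
  rw [h1]
  have h2 : Fintype.card {ab : Fin 4 × Fin 7 //
          (ab.1 : ℕ) + ab.2 = 1 ∧ ((Fin.rev ab.1 : Fin 4) : ℕ) + (Fin.rev ab.2 : Fin 7) < 10 - 2 - 1} = 0 := by
    decide
  have h3 : Fintype.card {j : Fin 5 // (![4, 5, 7, 1, 2] : Fin 5 → ℕ) j = 1 ∧
            (![4, 5, 7, 1, 2] : Fin 5 → ℕ) ((![0, 4, 3, 2, 1] : Fin 5 → Fin 5) j) < 10 - 2 - 1} = 0 := by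
    decide
  rw [h2, h3]
  ring

theorem c_other (a i : ℕ) (hi : 1 ≠ i) : Fintype.card {_l : Others p q s // 1 = i ∧ 1 < 10 - a - i} = 0 := by
  rw [Fintype.card_eq_zero_iff]
  exact ⟨fun x => hi x.2.1⟩

theorem c12 : Module.finrank k (gradedC k (mB k p q s) 1 2) = 1 := by
  rw [finrankB' k hpq hps hqs, c_other hpq hps hqs _ _ (by norm_num)]
  have h2 : Fintype.card {ab : Fin 4 × Fin 7 //
          (ab.1 : ℕ) + ab.2 = 2 ∧ ((Fin.rev ab.1 : Fin 4) : ℕ) + (Fin.rev ab.2 : Fin 7) < 10 - 1 - 2} = 0 := by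
    decide
  have h3 : Fintype.card {j : Fin 5 // (![4, 5, 7, 1, 2] : Fin 5 → ℕ) j = 2 ∧
            (![4, 5, 7, 1, 2] : Fin 5 → ℕ) ((![0, 4, 3, 2, 1] : Fin 5 → Fin 5) j) < 10 - 1 - 2} = 1 := by
    decide
  rw [h2, h3]

theorem c22 : Module.finrank k (gradedC k (mB k p q s) 2 2) = 1 := by
  rw [finrankB' k hpq hps hqs, c_other hpq hps hqs _ _ (by norm_num)]
  have h2 : Fintype.card {ab : Fin 4 × Fin 7 //
          (ab.1 : ℕ) + ab.2 = 2 ∧ ((Fin.rev ab.1 : Fin 4) : ℕ) + (Fin.rev ab.2 : Fin 7) < 10 - 2 - 2} = 0 := by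
    decide
  have h3 : Fintype.card {j : Fin 5 // (![4, 5, 7, 1, 2] : Fin 5 → ℕ) j = 2 ∧
            (![4, 5, 7, 1, 2] : Fin 5 → ℕ) ((![0, 4, 3, 2, 1] : Fin 5 → Fin 5) j) < 10 - 2 - 2} = 1 := by
    decide
  rw [h2, h3]

theorem c04 : Module.finrank k (gradedC k (mB k p q s) 0 4) = 5 := by
  rw [finrankB' k hpq hps hqs, c_other hpq hps hqs _ _ (by norm_num)]
  have h2 : Fintype.card {ab : Fin 4 × Fin 7 //
          (ab.1 : ℕ) + ab.2 = 4 ∧ ((Fin.rev ab.1 : Fin 4) : ℕ) + (Fin.rev ab.2 : Fin 7) < 10 - 0 - 4} = 4 := by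
    decide
  have h3 : Fintype.card {j : Fin 5 // (![4, 5, 7, 1, 2] : Fin 5 → ℕ) j = 4 ∧
            (![4, 5, 7, 1, 2] : Fin 5 → ℕ) ((![0, 4, 3, 2, 1] : Fin 5 → Fin 5) j) < 10 - 0 - 4} = 1 := by
    decide
  rw [h2, h3]

theorem c24 : Module.finrank k (gradedC k (mB k p q s) 2 4) = 0 := by
  rw [finrankB' k hpq hps hqs, c_other hpq hps hqs _ _ (by norm_num)]
  have h2 : Fintype.card {ab : Fin 4 × Fin 7 //
          (ab.1 : ℕ) + ab.2 = 4 ∧ ((Fin.rev ab.1 : Fin 4) : ℕ) + (Fin.rev ab.2 : Fin 7) < 10 - 2 - 4} = 0 := by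
    decide
  have h3 : Fintype.card {j : Fin 5 // (![4, 5, 7, 1, 2] : Fin 5 → ℕ) j = 4 ∧
            (![4, 5, 7, 1, 2] : Fin 5 → ℕ) ((![0, 4, 3, 2, 1] : Fin 5 → Fin 5) j) < 10 - 2 - 4} = 0 := by
    decide
  rw [h2, h3]

theorem symB_1 : symH k (mB k p q s) 0 1 + symH k (mB k p q s) 1 1 = 3 := by
  have : Module.Finite k (MvPowerSeries τ k ⧸ annI k p q s) := (adaptedB k hpq hps hqs).finite
  have h0 : symH k (mB k p q s) 0 1 + Module.finrank k (gradedC k (mB k p q s) 1 1) =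
    Module.finrank k (gradedC k (mB k p q s) 0 1) := symH_eq (k := k) (mB k p q s) 0 1
  have h1 : symH k (mB k p q s) 1 1 + Module.finrank k (gradedC k (mB k p q s) 2 1) =
    Module.finrank k (gradedC k (mB k p q s) 1 1) := symH_eq (k := k) (mB k p q s) 1 1
  rw [c01 k hpq hps hqs, c11 k hpq hps hqs] at h0
  rw [c11 k hpq hps hqs, c21 k hpq hps hqs] at h1
  omega

theorem symB_11 : symH k (mB k p q s) 1 1 ≠ 0 := by
  have : Module.Finite k (MvPowerSeries τ k ⧸ annI k p q s) := (adaptedB k hpq hps hqs).finite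
  have h1 : symH k (mB k p q s) 1 1 + Module.finrank k (gradedC k (mB k p q s) 2 1) =
    Module.finrank k (gradedC k (mB k p q s) 1 1) := symH_eq (k := k) (mB k p q s) 1 1
  rw [c11 k hpq hps hqs, c21 k hpq hps hqs] at h1
  omega

theorem symB_12 : symH k (mB k p q s) 1 2 = 0 := by
  have : Module.Finite k (MvPowerSeries τ k ⧸ annI k p q s) := (adaptedB k hpq hps hqs).finite
  have h1 : symH k (mB k p q s) 1 2 + Module.finrank k (gradedC k (mB k p q s) 2 2) =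
    Module.finrank k (gradedC k (mB k p q s) 1 2) := symH_eq (k := k) (mB k p q s) 1 2
  rw [c12 k hpq hps hqs, c22 k hpq hps hqs] at h1
  omega

theorem symB_4 : symH k (mB k p q s) 0 4 + symH k (mB k p q s) 1 4 = 5 := by
  have : Module.Finite k (MvPowerSeries τ k ⧸ annI k p q s) := (adaptedB k hpq hps hqs).finite
  have h0 : symH k (mB k p q s) 0 4 + Module.finrank k (gradedC k (mB k p q s) 1 4) =
    Module.finrank k (gradedC k (mB k p q s) 0 4) := symH_eq (k := k) (mB k p q s) 0 4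
  have h1 : symH k (mB k p q s) 1 4 + Module.finrank k (gradedC k (mB k p q s) 2 4) =
    Module.finrank k (gradedC k (mB k p q s) 1 4) := symH_eq (k := k) (mB k p q s) 1 4
  rw [c04 k hpq hps hqs] at h0
  rw [c24 k hpq hps hqs] at h1
  omega

theorem annI_ne_top : annI k p q s ≠ ⊤ := by
  intro h
  have h1 : (1 : MvPowerSeries τ k) ∈ annI k p q s := by rw [h]; exact Submodule.mem_top
  rw [mem_annI] at h1
  have h2 := h1 (monomial (M p q s 3 6 0) 1)
  rw [one_mul, Phi_apply] at h2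
  rw [← Phi_apply, ← Phibar_mk] at h2
  change Phibar k p q s (W k p q s (M p q s 3 6 0)) = 0 at h2
  rw [Phibar_M k hpq hps hqs, if_pos (by norm_num)] at h2
  exact one_ne_zero h2

theorem finrank_socleB : Module.finrank k (mB k p q s).annihilator = 1 := by
  have h := (adaptedB k hpq hps hqs).finrank_socle
  change Module.finrank k ((mB k p q s).annihilator.restrictScalars k) = 1
  rw [h]
  change Fintype.card {x : Idx p q s // oB p q s (σB p q s x) = 0} = 1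
  rw [card_Idx]
  have h1 : Fintype.card {l : Others p q s // oB p q s (σB p q s (Sum.inr (Sum.inr l))) = 0} = 0 := by
    rw [Fintype.card_eq_zero_iff]
    exact ⟨fun x => by
      have := x.2
      change 1 = 0 at this
      omega⟩
  rw [h1]
  change Fintype.card {ab : Fin 4 × Fin 7 // ((Fin.rev ab.1 : Fin 4) : ℕ) + (Fin.rev ab.2 : Fin 7) = 0} +
    (Fintype.card {j : Fin 5 // (![4, 5, 7, 1, 2] : Fin 5 → ℕ) ((![0, 4, 3, 2, 1] : Fin 5 → Fin 5) j) = 0} + 0) = 1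
  decide

end Pool.Agent.Lib.MP_29aef5_ag
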