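import Mathlib
import Pool.Agent.Lib.MP_29aef5_ag.Defs
import Pool.Agent.Lib.MP_29aef5_ag.General

/-!
The obstruction: an Artinian local algebra with `H(0)_1 + H(1)_1 = 3`, `H(1)_1 ≠ 0`, `H(1)_2 = 0`,
`H(0)_4 + H(1)_4 = 5` has some `H(a)_i ≠ 0` with `a ≥ 2`.
-/

namespace Pool.Agent.Lib.MP_29aef5_ag

variable {k : Type*} [Field k] {A : Type*} [CommRing A] [Algebra k A]

/-- The space of degree `n` forms in `x, y`. -/
def formSpace (k : Type*) [Field k] {A : Type*} [CommRing A] [Algebra k A] (x y : A) (n : ℕ) :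
    Submodule k A :=
  Submodule.span k (Set.range fun i : Fin (n + 1) => x ^ (n - (i : ℕ)) * y ^ (i : ℕ))

theorem formSpace_mul (x y : A) (n : ℕ) (α β : k) (s : A) (hs : s ∈ formSpace k x y n) :
    s * (α • x + β • y) ∈ formSpace k x y (n + 1) := by
  induction hs using Submodule.span_induction with
  | mem u hu =>
    obtain ⟨i, rfl⟩ := hu
    rw [mul_add, mul_smul_comm, mul_smul_comm]
    apply Submodule.add_mem
    · apply Submodule.smul_mem
      apply Submodule.subset_span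
      refine ⟨i.castSucc, ?_⟩
      have hi : (i : ℕ) ≤ n := by omega
      have : n + 1 - (i : ℕ) = (n - (i : ℕ)) + 1 := by omega
      simp only [Fin.val_castSucc, this]
      ring
    · apply Submodule.smul_mem
      apply Submodule.subset_span
      refine ⟨i.succ, ?_⟩
      have : n + 1 - ((i : ℕ) + 1) = n - (i : ℕ) := by omega
      simp only [Fin.val_succ, this]
      ring
  | zero => rw [zero_mul]; exact Submodule.zero_mem _
  | add u v _ _ hu hv => rw [add_mul]; exact Submodule.add_mem _ hu hv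
  | smul c u _ hu => rw [smul_mul_assoc]; exact Submodule.smul_mem _ _ hu

theorem smul_mem_ideal (m : Ideal A) (c : k) {u : A} (hu : u ∈ m) : c • u ∈ m := by
  rw [Algebra.smul_def]; exact Ideal.mul_mem_left _ _ hu

theorem formSpace_le (m : Ideal A) (x y : A) (hx : x ∈ m) (hy : y ∈ m) (n : ℕ) (s : A)
    (hs : s ∈ formSpace k x y n) : s ∈ m ^ n := by
  induction hs using Submodule.span_induction with
  | mem u hu =>
    obtain ⟨i, rfl⟩ := hu
    have h1 := Ideal.mul_mem_mul (Ideal.pow_mem_pow hx (n - (i : ℕ))) (Ideal.pow_mem_pow hy (i : ℕ))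
    rw [← pow_add] at h1
    have : n - (i : ℕ) + i = n := by omega
    rwa [this] at h1
  | zero => exact Ideal.zero_mem _
  | add u v _ _ hu hv => exact Ideal.add_mem _ hu hv
  | smul c u _ hu => exact smul_mem_ideal _ c hu

theorem form_step (m : Ideal A) (x y z : A) (hx : x ∈ m) (hy : y ∈ m)
    (hgen : ∀ a ∈ m, ∃ α β γ : k, a - (α • x + β • y + γ • z) ∈ m ^ 2)
    (hz : ∀ r ∈ m, r * z ∈ m ^ 3) (n : ℕ)
    (hn : ∀ b ∈ m ^ (n + 1), ∃ s ∈ formSpace k x y (n + 1), ∀ c ∈ m, (b - s) * c ∈ m ^ (n + 3)) :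
    ∀ b ∈ m ^ (n + 2), ∃ s ∈ formSpace k x y (n + 2), b - s ∈ m ^ (n + 3) := by
  intro b hb
  rw [pow_succ] at hb
  induction hb using Submodule.mul_induction_on' with
  | mem_mul_mem b hb c hc =>
    obtain ⟨s, hs, hbs⟩ := hn b hb
    obtain ⟨α, β, γ, hc'⟩ := hgen c hc
    refine ⟨s * (α • x + β • y), formSpace_mul x y (n + 1) α β s hs, ?_⟩
    have h1 := hbs c hc
    have hsm : s ∈ m ^ (n + 1) := formSpace_le m x y hx hy (n + 1) s hs
    have h2 : s * (c - (α • x + β • y + γ • z)) ∈ m ^ (n + 3) := by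
      have := Ideal.mul_mem_mul hsm hc'
      rwa [← pow_add] at this
    have h3 : s * z ∈ m ^ (n + 3) := by
      rw [pow_succ] at hsm
      have h4 : ∀ t ∈ m ^ n * m, t * z ∈ m ^ (n + 3) := by
        intro t ht
        induction ht using Submodule.mul_induction_on' with
        | mem_mul_mem u hu v hv =>
          have := Ideal.mul_mem_mul hu (hz v hv)
          rw [← pow_add] at this
          rwa [mul_assoc]
        | add u _ v _ hu hv => rw [add_mul]; exact Ideal.add_mem _ hu hv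
      exact h4 s hsm
    have h5 := Ideal.add_mem _ (Ideal.add_mem _ h1 h2) (smul_mem_ideal (m ^ (n + 3)) γ h3)
    convert h5 using 1
    simp only [mul_sub, sub_mul, mul_add, mul_smul_comm]
    ring
  | add u _ v _ hu hv =>
    obtain ⟨s, hs, h1⟩ := hu
    obtain ⟨t, ht, h2⟩ := hv
    refine ⟨s + t, Submodule.add_mem _ hs ht, ?_⟩
    have := Ideal.add_mem _ h1 h2
    convert this using 1
    ring

theorem mem_of_mkₐ_mem_bot (I : Ideal A) (x : A)
    (h : Ideal.Quotient.mkₐ k I x ∈ (⊥ : Submodule k (A ⧸ I))) : x ∈ I := by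
  rw [Submodule.mem_bot, Ideal.Quotient.mkₐ_eq_mk] at h
  exact Ideal.Quotient.eq_zero_iff_mem.1 h

theorem exists_gen (V : Type*) [AddCommGroup V] [Module k V] [Module.Finite k V]
    (h : Module.finrank k V = 3) (z : V) (hz : z ≠ 0) :
    ∃ x y : V, ∀ v : V, ∃ α β γ : k, v = α • x + β • y + γ • z := by
  obtain ⟨W, hW⟩ := Submodule.exists_isCompl (Submodule.span k {z})
  have hWd : Module.finrank k W = 2 := by
    have := Submodule.finrank_add_eq_of_isCompl hW
    rw [finrank_span_singleton hz, h] at this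
    omega
  have hb : ∃ x y : W, ∀ w : W, ∃ α β : k, w = α • x + β • y := by
    have b : Module.Basis (Fin 2) k W := Module.finBasisOfFinrankEq k W hWd
    refine ⟨b 0, b 1, fun w => ⟨b.repr w 0, b.repr w 1, ?_⟩⟩
    have := b.sum_repr w
    rw [Fin.sum_univ_two] at this
    exact this.symm
  obtain ⟨x, y, hxy⟩ := hb
  refine ⟨x.1, y.1, ?_⟩
  intro v
  have htop : v ∈ Submodule.span k {z} ⊔ W := by
    rw [hW.sup_eq_top]; exact Submodule.mem_top
  obtain ⟨u, hu, w, hw, huw⟩ := Submodule.mem_sup.1 htop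
  obtain ⟨γ, rfl⟩ := Submodule.mem_span_singleton.1 hu
  obtain ⟨α, β, h2⟩ := hxy ⟨w, hw⟩
  have h3 : w = α • x.1 + β • y.1 := congrArg Subtype.val h2
  refine ⟨α, β, γ, ?_⟩
  rw [← huw, add_comm, h3]

theorem exists_gen_sub {M : Type*} [AddCommGroup M] [Module k M] (V : Submodule k M)
    [Module.Finite k V] (h : Module.finrank k V = 3) (z : M) (hzV : z ∈ V) (hz : z ≠ 0) :
    ∃ x ∈ V, ∃ y ∈ V, ∀ v ∈ V, ∃ α β γ : k, v = α • x + β • y + γ • z := by
  have hz' : (⟨z, hzV⟩ : V) ≠ 0 := by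
    intro h0
    exact hz (congrArg Subtype.val h0)
  obtain ⟨x, y, hxy⟩ := exists_gen (k := k) V h ⟨z, hzV⟩ hz'
  refine ⟨x.1, x.2, y.1, y.2, fun v hv => ?_⟩
  obtain ⟨α, β, γ, h1⟩ := hxy ⟨v, hv⟩
  exact ⟨α, β, γ, congrArg Subtype.val h1⟩

theorem exists_gen' (m : Ideal A) [Module.Finite k A] {N : ℕ} (hN : m ^ N = ⊥)
    (hd1 : Module.finrank k (gradedC k m 0 1) = 3) (z : A) (hzm : z ∈ m) (hz2 : z ∉ m ^ 2) :
    ∃ x y : A, x ∈ m ∧ y ∈ m ∧
      ∀ a ∈ m, ∃ α β γ : k, a - (α • x + β • y + γ • z) ∈ m ^ 2 := by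
  have hVmem : ∀ a ∈ m, Ideal.Quotient.mkₐ k (m ^ (1 + 1)) a ∈ gradedC k m 0 1 := by
    intro a ha
    rw [gradedC_zero m hN]
    exact ⟨a, by simpa using ha, rfl⟩
  have hlift : ∀ v ∈ gradedC k m 0 1, ∃ a ∈ m, Ideal.Quotient.mkₐ k (m ^ (1 + 1)) a = v := by
    intro v hv
    rw [gradedC_zero m hN] at hv
    obtain ⟨a, ha, hav⟩ := hv
    exact ⟨a, by simpa using ha, hav⟩
  have hzb : Ideal.Quotient.mkₐ k (m ^ (1 + 1)) z ≠ 0 := by
    intro h
    rw [Ideal.Quotient.mkₐ_eq_mk, Ideal.Quotient.eq_zero_iff_mem] at h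
    exact hz2 h
  obtain ⟨x', hx', y', hy', hxy⟩ := exists_gen_sub _ hd1 _ (hVmem z hzm) hzb
  obtain ⟨x, hx, rfl⟩ := hlift x' hx'
  obtain ⟨y, hy, rfl⟩ := hlift y' hy'
  refine ⟨x, y, hx, hy, fun a ha => ?_⟩
  obtain ⟨α, β, γ, h⟩ := hxy _ (hVmem a ha)
  refine ⟨α, β, γ, ?_⟩
  apply mem_of_mkₐ_mem_bot (k := k)
  rw [Submodule.mem_bot, map_sub, map_add, map_add, map_smul, map_smul, map_smul]
  exact sub_eq_zero.2 h

theorem exists_z (m : Ideal A) [Module.Finite k A]
    (h11 : symH k m 1 1 ≠ 0) (hC2 : gradedC k m 2 1 = ⊥) :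
    ∃ z ∈ m, (∀ y ∈ m ^ (socleDegree m - 1), z * y = 0) ∧ z ∉ m ^ 2 := by
  have a1 : symH k m 1 1 + Module.finrank k (gradedC k m 2 1) =
      Module.finrank k (gradedC k m 1 1) := symH_eq (k := k) m 1 1
  rw [hC2, finrank_bot, add_zero] at a1
  have hne : gradedC k m 1 1 ≠ ⊥ := by
    intro h
    rw [h, finrank_bot] at a1
    exact h11 a1
  obtain ⟨v, hv, hv0⟩ := Submodule.exists_mem_ne_zero_of_ne_bot hne
  obtain ⟨z, hz, rfl⟩ := hv
  have hzz : z ∈ (m ^ (socleDegree m + 1 - 1 - 1)).annihilator ⊓ m ^ 1 := hz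
  refine ⟨z, by simpa using hzz.2, ?_, ?_⟩
  · intro y hy
    have h3 : z ∈ (m ^ (socleDegree m + 1 - 1 - 1)).annihilator := hzz.1
    rw [Submodule.mem_annihilator] at h3
    exact h3 y (by rw [show socleDegree m + 1 - 1 - 1 = socleDegree m - 1 by omega]; exact hy)
  · intro h
    apply hv0
    change Ideal.Quotient.mkₐ k (m ^ (1 + 1)) z = 0
    rw [Ideal.Quotient.mkₐ_eq_mk, Ideal.Quotient.eq_zero_iff_mem]
    exact h

theorem quartic_independent (m : Ideal A) [Module.Finite k A] {N : ℕ} (hN : m ^ N = ⊥)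
    (hd4 : Module.finrank k (gradedC k m 0 4) = 5) (x y : A) (hx : x ∈ m) (hy : y ∈ m)
    (P4 : ∀ b ∈ m ^ 4, ∃ s ∈ formSpace k x y 4, b - s ∈ m ^ 5) (c : Fin 5 → k)
    (hc : (∑ i, c i • (x ^ (4 - (i : ℕ)) * y ^ (i : ℕ))) ∈ m ^ 5) : ∀ i, c i = 0 := by
  have hli : LinearIndependent k (fun i : Fin 5 => Ideal.Quotient.mkₐ k (m ^ (4 + 1))
      (x ^ (4 - (i : ℕ)) * y ^ (i : ℕ))) := by
    rw [linearIndependent_iff_card_eq_finrank_span, Fintype.card_fin, Set.finrank]
    refine hd4.symm.trans ?_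
    apply congrArg (fun W : Submodule k (A ⧸ m ^ (4 + 1)) => Module.finrank k W)
    rw [gradedC_zero m hN]
    have hrange : Set.range (fun i : Fin 5 => Ideal.Quotient.mkₐ k (m ^ (4 + 1))
        (x ^ (4 - (i : ℕ)) * y ^ (i : ℕ))) = (Ideal.Quotient.mkₐ k (m ^ (4 + 1))).toLinearMap ''
          (Set.range fun i : Fin 5 => x ^ (4 - (i : ℕ)) * y ^ (i : ℕ)) := by
      rw [← Set.range_comp]; rfl
    rw [hrange, ← Submodule.map_span]
    have : (m ^ 4).restrictScalars k ≤ Submodule.comap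
        (Ideal.Quotient.mkₐ k (m ^ (4 + 1))).toLinearMap (Submodule.map
          (Ideal.Quotient.mkₐ k (m ^ (4 + 1))).toLinearMap (Submodule.span k
            (Set.range fun i : Fin 5 => x ^ (4 - (i : ℕ)) * y ^ (i : ℕ)))) := by
      intro b hb
      obtain ⟨s, hs, hbs⟩ := P4 b hb
      refine ⟨s, hs, ?_⟩
      change Ideal.Quotient.mkₐ k (m ^ (4 + 1)) s = Ideal.Quotient.mkₐ k (m ^ (4 + 1)) b
      rw [Ideal.Quotient.mkₐ_eq_mk]
      exact (Ideal.Quotient.eq.2 hbs).symm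
    have h2 : Submodule.map (Ideal.Quotient.mkₐ k (m ^ (4 + 1))).toLinearMap
        ((m ^ 4).restrictScalars k) = Submodule.map
          (Ideal.Quotient.mkₐ k (m ^ (4 + 1))).toLinearMap (Submodule.span k
            (Set.range fun i : Fin 5 => x ^ (4 - (i : ℕ)) * y ^ (i : ℕ))) := by
      apply le_antisymm
      · exact Submodule.map_le_iff_le_comap.2 this
      · apply Submodule.map_mono
        intro s hs
        exact formSpace_le m x y hx hy 4 s hs
    rw [h2]
  rw [Fintype.linearIndependent_iff] at hli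
  apply hli c
  have h5 : Ideal.Quotient.mkₐ k (m ^ (4 + 1))
      (∑ i, c i • (x ^ (4 - (i : ℕ)) * y ^ (i : ℕ))) = 0 := by
    rw [Ideal.Quotient.mkₐ_eq_mk, Ideal.Quotient.eq_zero_iff_mem]
    exact hc
  rw [map_sum] at h5
  simpa only [map_smul] using h5


theorem sum3 (x y : A) (a : Fin (3 + 1) → k) :
    ∑ i : Fin (3 + 1), a i • (x ^ (3 - (i : ℕ)) * y ^ (i : ℕ)) =
      a 0 • x ^ 3 + a 1 • (x ^ 2 * y) + a 2 • (x * y ^ 2) + a 3 • y ^ 3 := by
  have : ∀ b : Fin 4 → A, ∑ i, b i = b 0 + b 1 + b 2 + b 3 := fun b => Fin.sum_univ_four b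
  refine (this _).trans ?_
  have h1 : ((1 : Fin 4) : ℕ) = 1 := rfl
  have h2 : ((2 : Fin 4) : ℕ) = 2 := rfl
  have h3 : ((3 : Fin 4) : ℕ) = 3 := rfl
  have h0 : ((0 : Fin 4) : ℕ) = 0 := rfl
  rw [h0, h1, h2, h3]
  simp

theorem sum4 (x y : A) (a : Fin 5 → k) :
    ∑ i : Fin 5, a i • (x ^ (4 - (i : ℕ)) * y ^ (i : ℕ)) =
      a 0 • x ^ 4 + a 1 • (x ^ 3 * y) + a 2 • (x ^ 2 * y ^ 2) + a 3 • (x * y ^ 3) +
        a 4 • y ^ 4 := by
  refine (Fin.sum_univ_five _).trans ?_
  have h1 : ((1 : Fin 5) : ℕ) = 1 := rfl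
  have h2 : ((2 : Fin 5) : ℕ) = 2 := rfl
  have h3 : ((3 : Fin 5) : ℕ) = 3 := rfl
  have h4 : ((4 : Fin 5) : ℕ) = 4 := rfl
  have h0 : ((0 : Fin 5) : ℕ) = 0 := rfl
  rw [h0, h1, h2, h3, h4]
  simp

/-- The obstruction. -/
theorem obstruction (m : Ideal A) [IsNoetherianRing A]
    (hres : ∀ b : A, ∃ c : k, b - algebraMap k A c ∈ m) {N : ℕ} (hN : m ^ N = ⊥)
    (h1 : symH k m 0 1 + symH k m 1 1 = 3) (h11 : symH k m 1 1 ≠ 0) (h12 : symH k m 1 2 = 0)
    (h4 : symH k m 0 4 + symH k m 1 4 = 5) (hge : ∀ a, 2 ≤ a → ∀ i, symH k m a i = 0) :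
    False := by
  have : Module.Finite k A := finite_of_nilpotent m hres hN
  have hC2 : ∀ i, gradedC k m 2 i = ⊥ := fun i => gradedC_eq_bot m 2 i (fun a ha => hge a ha i)
  have hC12 : gradedC k m 1 2 = ⊥ := by
    rw [gradedC_eq_of_symH_eq_zero m 1 2 h12, hC2]
  have hd : ∀ i, Module.finrank k (gradedC k m 0 i) = symH k m 0 i + symH k m 1 i := by
    intro i
    have a0 := symH_eq (k := k) m 0 i
    have a1 := symH_eq (k := k) m 1 i
    rw [show (1 : ℕ) + 1 = 2 from rfl, hC2 i, finrank_bot, add_zero] at a1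
    rw [zero_add, ← a1] at a0
    exact a0.symm
  have hd1 : Module.finrank k (gradedC k m 0 1) = 3 := by rw [hd, h1]
  have hd4 : Module.finrank k (gradedC k m 0 4) = 5 := by rw [hd, h4]
  have hsoc := pow_socleDegree_succ m hN
  set j := socleDegree m with hj
  obtain ⟨z, hzm, hzann, hz2⟩ := exists_z m h11 (hC2 1)
  rw [← hj] at hzann
  obtain ⟨x, y, hx, hy, hgen⟩ := exists_gen' m hN hd1 z hzm hz2
  -- z kills m up to m^3
  have hzm3 : ∀ r ∈ m, r * z ∈ m ^ 3 := by
    intro r hr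
    apply mem_of_mkₐ_mem_bot (k := k)
    rw [← hC12]
    apply mem_gradedC
    · rw [pow_two]; exact Ideal.mul_mem_mul hr hzm
    · intro u hu
      have h5 : r * u ∈ m ^ (j - 1) := by
        have := Ideal.mul_mem_mul hr hu
        rw [← pow_succ'] at this
        exact Ideal.pow_le_pow_right (by omega) this
      calc r * z * u = z * (r * u) := by ring
        _ = 0 := hzann _ h5
  have hz2' : ∀ r ∈ m ^ 2, r * z ∈ m ^ 4 := by
    intro r hr
    rw [pow_two] at hr
    induction hr using Submodule.mul_induction_on' with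
    | mem_mul_mem u hu v hv =>
      have := Ideal.mul_mem_mul hu (hzm3 v hv)
      rw [← pow_succ'] at this
      rwa [mul_assoc]
    | add u _ v _ hu hv => rw [add_mul]; exact Ideal.add_mem _ hu hv
  -- spanning sets
  have P2 : ∀ b ∈ m ^ 2, ∃ s ∈ formSpace k x y 2, b - s ∈ m ^ 3 := by
    apply form_step m x y z hx hy hgen hzm3 0
    intro b hb
    rw [zero_add, pow_one] at hb
    obtain ⟨α, β, γ, hbb⟩ := hgen b hb
    refine ⟨α • x + β • y, ?_, ?_⟩
    · apply Submodule.add_mem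
      · apply Submodule.smul_mem
        apply Submodule.subset_span
        exact ⟨0, by simp⟩
      · apply Submodule.smul_mem
        apply Submodule.subset_span
        exact ⟨1, by simp⟩
    · intro c hc
      have h5 := Ideal.mul_mem_mul hbb hc
      rw [← pow_succ] at h5
      have h6 := smul_mem_ideal (m ^ 3) γ (hzm3 c hc)
      have := Ideal.add_mem _ h5 h6
      convert this using 1
      simp only [sub_mul, add_mul, smul_mul_assoc]
      rw [mul_comm c z]
      ring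
  have P3 : ∀ b ∈ m ^ 3, ∃ s ∈ formSpace k x y 3, b - s ∈ m ^ 4 := by
    apply form_step m x y z hx hy hgen hzm3 1
    intro b hb
    obtain ⟨s, hs, hbs⟩ := P2 b hb
    refine ⟨s, hs, fun c hc => ?_⟩
    have := Ideal.mul_mem_mul hbs hc
    rwa [← pow_succ] at this
  have P4 : ∀ b ∈ m ^ 4, ∃ s ∈ formSpace k x y 4, b - s ∈ m ^ 5 := by
    apply form_step m x y z hx hy hgen hzm3 2
    intro b hb
    obtain ⟨s, hs, hbs⟩ := P3 b hb
    refine ⟨s, hs, fun c hc => ?_⟩
    have := Ideal.mul_mem_mul hbs hc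
    rwa [← pow_succ] at this
  -- independence in degree four
  have hind := quartic_independent m hN hd4 x y hx hy P4
  -- the three relations
  have hxz : x * z ∈ m ^ 3 := hzm3 x hx
  have hyz : y * z ∈ m ^ 3 := hzm3 y hy
  have hzz : z * z ∈ m ^ 3 := hzm3 z hzm
  obtain ⟨s1, hs1, hs1'⟩ := P3 _ hxz
  obtain ⟨s2, hs2, hs2'⟩ := P3 _ hyz
  obtain ⟨s3, hs3, hs3'⟩ := P3 _ hzz
  obtain ⟨a, rfl⟩ := (Submodule.mem_span_range_iff_exists_fun k).1 hs1
  obtain ⟨b, rfl⟩ := (Submodule.mem_span_range_iff_exists_fun k).1 hs2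
  obtain ⟨c, rfl⟩ := (Submodule.mem_span_range_iff_exists_fun k).1 hs3
  have hs1'' : x * z - (a 0 • x ^ 3 + a 1 • (x ^ 2 * y) + a 2 • (x * y ^ 2) + a 3 • y ^ 3)
      ∈ m ^ 4 := by rw [← sum3]; exact hs1'
  have hs2'' : y * z - (b 0 • x ^ 3 + b 1 • (x ^ 2 * y) + b 2 • (x * y ^ 2) + b 3 • y ^ 3)
      ∈ m ^ 4 := by rw [← sum3]; exact hs2'
  have hs3'' : z * z - (c 0 • x ^ 3 + c 1 • (x ^ 2 * y) + c 2 • (x * y ^ 2) + c 3 • y ^ 3)
      ∈ m ^ 4 := by rw [← sum3]; exact hs3'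
  have hrel1 := hind ![-(b 0), a 0 - b 1, a 1 - b 2, a 2 - b 3, a 3] (by
    have t1 := Ideal.mul_mem_mul hy hs1''
    have t2 := Ideal.mul_mem_mul hx hs2''
    rw [← pow_succ'] at t1 t2
    have t3 := Ideal.sub_mem _ t2 t1
    convert t3 using 1
    rw [sum4]
    simp only [Matrix.cons_val_zero, Matrix.cons_val_one, Matrix.cons_val,
      Algebra.smul_def, map_neg, map_sub]
    ring)
  have hrel3 := hind ![c 0, c 1, c 2, c 3, 0] (by
    have t1 := Ideal.mul_mem_mul hx hs3''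
    rw [← pow_succ'] at t1
    have t2 : x * (z * z) ∈ m ^ 5 := by
      have hh : ∀ r ∈ m ^ 3, r * z ∈ m ^ 5 := by
        intro r hr
        rw [pow_succ] at hr
        induction hr using Submodule.mul_induction_on' with
        | mem_mul_mem u hu v hv =>
          have := Ideal.mul_mem_mul hu (hzm3 v hv)
          rw [← pow_add] at this
          rwa [mul_assoc]
        | add u _ v _ hu hv => rw [add_mul]; exact Ideal.add_mem _ hu hv
      have := hh _ hxz
      rwa [mul_assoc] at this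
    have t3 := Ideal.sub_mem _ t2 t1
    convert t3 using 1
    rw [sum4]
    simp only [Matrix.cons_val_zero, Matrix.cons_val_one, Matrix.cons_val,
      Algebra.smul_def, map_zero]
    ring)
  have b0 : b 0 = 0 := by simpa using hrel1 0
  have b1 : a 0 = b 1 := by simpa [sub_eq_zero] using hrel1 1
  have b2 : a 1 = b 2 := by simpa [sub_eq_zero] using hrel1 2
  have b3 : a 2 = b 3 := by simpa [sub_eq_zero] using hrel1 3
  have a3 : a 3 = 0 := by simpa using hrel1 4
  have c0 : c 0 = 0 := by simpa using hrel3 0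
  have c1 : c 1 = 0 := by simpa using hrel3 1
  have c2 : c 2 = 0 := by simpa using hrel3 2
  have c3 : c 3 = 0 := by simpa using hrel3 3
  -- the corrected element
  set e : A := a 0 • (x * x) + a 1 • (x * y) + a 2 • (y * y) with he
  have hem : e ∈ m ^ 2 := by
    rw [pow_two]
    exact Ideal.add_mem _ (Ideal.add_mem _ (smul_mem_ideal _ _ (Ideal.mul_mem_mul hx hx))
      (smul_mem_ideal _ _ (Ideal.mul_mem_mul hx hy)))
      (smul_mem_ideal _ _ (Ideal.mul_mem_mul hy hy))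
  have hwx : (z - e) * x ∈ m ^ 4 := by
    convert hs1'' using 1
    rw [he, a3]
    simp only [Algebra.smul_def, map_zero]
    ring
  have hwy : (z - e) * y ∈ m ^ 4 := by
    convert hs2'' using 1
    rw [he, b0, ← b1, ← b2, ← b3]
    simp only [Algebra.smul_def, map_zero]
    ring
  have hwz : (z - e) * z ∈ m ^ 4 := by
    rw [c0, c1, c2, c3] at hs3''
    simp only [zero_smul, add_zero, sub_zero] at hs3''
    rw [sub_mul]
    exact Ideal.sub_mem _ hs3'' (hz2' e hem)
  have hwm2 : ∀ r ∈ m ^ 2, (z - e) * r ∈ m ^ 4 := by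
    intro r hr
    rw [sub_mul]
    apply Ideal.sub_mem
    · rw [mul_comm]; exact hz2' r hr
    · have := Ideal.mul_mem_mul hem hr
      rwa [← pow_add] at this
  have hwm : ∀ r ∈ m, (z - e) * r ∈ m ^ 4 := by
    intro r hr
    obtain ⟨α, β, γ, hr'⟩ := hgen r hr
    have t := Ideal.add_mem _ (Ideal.add_mem _ (Ideal.add_mem _ (smul_mem_ideal _ α hwx)
      (smul_mem_ideal _ β hwy)) (smul_mem_ideal _ γ hwz)) (hwm2 _ hr')
    convert t using 1
    simp only [Algebra.smul_def]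
    ring
  -- the socle degree is at least four
  have hj4 : 4 ≤ j := by
    by_contra hlt
    push Not at hlt
    have : gradedC k m 0 4 = ⊥ := gradedC_eq_bot_of_large m 0 4 (by omega)
    rw [this, finrank_bot] at hd4
    omega
  have hfinal : z - e ∈ m ^ 2 := by
    apply mem_of_mkₐ_mem_bot (k := k)
    rw [← hC2 1]
    apply mem_gradedC
    · rw [pow_one]
      exact Ideal.sub_mem _ hzm (Ideal.pow_le_self (by norm_num) hem)
    · intro u hu
      have hu' : u ∈ m * m ^ (j - 3) := by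
        rw [← pow_succ']
        exact Ideal.pow_le_pow_right (by omega) hu
      have hk : ∀ t ∈ m * m ^ (j - 3), (z - e) * t ∈ m ^ (j + 1) := by
        intro t ht
        induction ht using Submodule.mul_induction_on' with
        | mem_mul_mem v hv w hw =>
          have := Ideal.mul_mem_mul (hwm v hv) hw
          rw [← pow_add, show 4 + (j - 3) = j + 1 by omega] at this
          rwa [← mul_assoc]
        | add v _ w _ hv hw => rw [mul_add]; exact Ideal.add_mem _ hv hw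
      have := hk u hu'
      rwa [hsoc, Submodule.mem_bot] at this
  apply hz2
  have := Ideal.add_mem _ hfinal hem
  rwa [sub_add_cancel] at this

end Pool.Agent.Lib.MP_29aef5_ag
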