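import Mathlib
import Pool.Agent.Lib.MP_29aef5_ag.Defs
import Pool.Agent.Lib.MP_29aef5_ag.General
import Pool.Agent.Lib.MP_29aef5_ag.Example
import Pool.Agent.Lib.MP_29aef5_ag.Example2

/-!
Generalities on quotients of power series rings.
-/

namespace Pool.Agent.Lib.MP_29aef5_ag

open MvPowerSeries Finsupp

variable {k : Type*} [Field k] {r : ℕ}

/-- The part of `g / X_l` coming from monomials whose first variable is `X_l`. -/
noncomputable def part (g : MvPowerSeries (Fin r) k) (l : Fin r) : MvPowerSeries (Fin r) k :=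
  fun d => if ∀ l' < l, d l' = 0 then coeff (d + single l 1) g else 0

theorem coeff_part (g : MvPowerSeries (Fin r) k) (l : Fin r) (d : Fin r →₀ ℕ) :
    coeff d (part g l) = if ∀ l' < l, d l' = 0 then coeff (d + single l 1) g else 0 := rfl

theorem sum_X_part (g : MvPowerSeries (Fin r) k) (hg : coeff 0 g = 0) :
    g = ∑ l, X l * part g l := by
  ext d
  rw [map_sum]
  have hX : ∀ l, coeff d (X l * part g l) =
      if single l 1 ≤ d then coeff (d - single l 1) (part g l) else 0 := by
    intro l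
    have : (X l : MvPowerSeries (Fin r) k) = monomial (single l 1) 1 := rfl
    rw [this, coeff_monomial_mul, one_mul]
  by_cases hd : d = 0
  · subst hd
    rw [hg]
    symm
    apply Finset.sum_eq_zero
    intro l _
    rw [hX, if_neg]
    intro h
    have := h l
    rw [single_eq_same] at this
    simp at this
  · have hex : ∃ l, d l ≠ 0 := by
      by_contra h
      push Not at h
      exact hd (Finsupp.ext h)
    let l0 := Fin.find (fun l => d l ≠ 0) hex
    have hl0 : d l0 ≠ 0 := Fin.find_spec (p := fun l => d l ≠ 0) hex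
    have hmin : ∀ l' < l0, d l' = 0 := by
      intro l' hl'
      by_contra h
      exact Fin.find_min (p := fun l => d l ≠ 0) hex hl' h
    rw [Finset.sum_eq_single l0]
    · have hle : single l0 1 ≤ d := by
        rw [Finsupp.single_le_iff]; omega
      rw [hX, if_pos hle, coeff_part, if_pos, tsub_add_cancel_of_le hle]
      intro l' hl'
      rw [Finsupp.tsub_apply, hmin l' hl', Nat.zero_sub]
    · intro l _ hne
      rw [hX]
      by_cases hle : single l 1 ≤ d
      · rw [if_pos hle, coeff_part, if_neg]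
        intro hall
        have h1 : d l ≠ 0 := by
          rw [Finsupp.single_le_iff] at hle; omega
        rcases lt_or_gt_of_ne hne with h2 | h2
        · exact h1 (hmin l h2)
        · have h3 := hall l0 h2
          rw [Finsupp.tsub_apply, single_eq_of_ne hne.symm, Nat.sub_zero] at h3
          exact hl0 h3
      · rw [if_neg hle]
    · intro h; exact absurd (Finset.mem_univ _) h

theorem mem_maximalIdeal_sq (g : MvPowerSeries (Fin r) k)
    (hg : ∀ d : Fin r →₀ ℕ, d.degree < 2 → coeff d g = 0) :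
    g ∈ IsLocalRing.maximalIdeal (MvPowerSeries (Fin r) k) ^ 2 := by
  rw [sum_X_part g (hg 0 (by simp)), pow_two]
  apply Ideal.sum_mem
  intro l _
  apply Ideal.mul_mem_mul
  · rw [mem_maximalIdeal_iff, coeff_zero_X]
  · rw [mem_maximalIdeal_iff, coeff_part]
    split_ifs
    · rw [zero_add]
      apply hg
      rw [degree_single]
      norm_num
    · rfl

theorem maxIdeal_res (J : Ideal (MvPowerSeries (Fin r) k)) (b : MvPowerSeries (Fin r) k ⧸ J) :
    ∃ c : k, b - algebraMap k (MvPowerSeries (Fin r) k ⧸ J) c ∈ maxIdeal J := by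
  obtain ⟨g, rfl⟩ := Ideal.Quotient.mk_surjective b
  refine ⟨coeff 0 g, ?_⟩
  have h1 : algebraMap k (MvPowerSeries (Fin r) k ⧸ J) (coeff 0 g) =
      Ideal.Quotient.mk J (algebraMap k (MvPowerSeries (Fin r) k) (coeff 0 g)) := rfl
  rw [h1, ← map_sub]
  apply Ideal.mem_map_of_mem
  rw [mem_maximalIdeal_iff, map_sub]
  have h2 : algebraMap k (MvPowerSeries (Fin r) k) (coeff 0 g) = C (coeff 0 g) := rfl
  rw [h2, coeff_zero_C, sub_self]

theorem maxIdeal_nilpotent (J : Ideal (MvPowerSeries (Fin r) k)) (hJ : J ≠ ⊤)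
    [IsArtinianRing (MvPowerSeries (Fin r) k ⧸ J)] : ∃ N, maxIdeal J ^ N = ⊥ := by
  have : Nontrivial (MvPowerSeries (Fin r) k ⧸ J) := Ideal.Quotient.nontrivial_iff.2 hJ
  have : IsLocalRing (MvPowerSeries (Fin r) k ⧸ J) :=
    IsLocalRing.of_surjective' (Ideal.Quotient.mk J) Ideal.Quotient.mk_surjective
  obtain ⟨N, hN⟩ := IsArtinianRing.isNilpotent_jacobson_bot (R := MvPowerSeries (Fin r) k ⧸ J)
  rw [IsLocalRing.jacobson_eq_maximalIdeal ⊥ bot_ne_top] at hN
  refine ⟨N, ?_⟩
  rw [eq_bot_iff]
  refine le_trans (Ideal.pow_right_mono ?_ N) (le_of_eq hN)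
  rw [maxIdeal, Ideal.map_le_iff_le_comap]
  intro g hg
  rw [Ideal.mem_comap, IsLocalRing.mem_maximalIdeal, mem_nonunits_iff]
  intro hu
  obtain ⟨h, hh⟩ := hu.exists_right_inv
  obtain ⟨h, rfl⟩ := Ideal.Quotient.mk_surjective h
  rw [← map_mul, ← map_one (Ideal.Quotient.mk J), Ideal.Quotient.eq] at hh
  have h1 := IsLocalRing.le_maximalIdeal hJ hh
  have h2 : (1 : MvPowerSeries (Fin r) k) ∈ IsLocalRing.maximalIdeal (MvPowerSeries (Fin r) k) := by
    have := Ideal.sub_mem _ (Ideal.mul_mem_right h _ hg) h1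
    rwa [sub_sub_cancel] at this
  exact (Ideal.ne_top_iff_one _).1 (IsLocalRing.maximalIdeal.isMaximal _).ne_top h2

end Pool.Agent.Lib.MP_29aef5_ag
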